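import Pool.Agent.Q202.Rec.Polish

/-!
# Faithful representations of a monoid with closed image
-/

set_option autoImplicit false
set_option linter.unusedSectionVars false

namespace Q202.Rec

open Topology Filter

universe u v w

/-- a faithful representation of the monoid `M` by transformations of `Ω`, with closed image -/
structure Repn (M : Type u) [Monoid M] (Ω : Type v) where
  act : M → Ω → Ω
  one : ∀ x, act 1 x = x
  mul : ∀ p q x, act (p * q) x = act p (act q x)
  inj : ∀ p q, (∀ x, act p x = act q x) → p = q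
  closed : ∀ f : Ω → Ω, (∀ F : Finset Ω, ∃ p, ∀ x ∈ F, act p x = f x) → ∃ p, ∀ x, act p x = f x

namespace Repn

variable {M : Type u} [Monoid M] {Ω : Type v} (ρ : Repn M Ω)

/-- the units act by permutations -/
def perm : Mˣ →* Equiv.Perm Ω where
  toFun g :=
    { toFun := ρ.act g
      invFun := ρ.act (g⁻¹ : Mˣ)
      left_inv := fun x => by rw [← ρ.mul, Units.inv_mul, ρ.one]
      right_inv := fun x => by rw [← ρ.mul, Units.mul_inv, ρ.one] }
  map_one' := by
    ext x
    exact ρ.one x
  map_mul' g h := by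
    ext x
    exact ρ.mul g h x

@[simp] theorem perm_apply (g : Mˣ) (x : Ω) : ρ.perm g x = ρ.act g x := rfl

theorem perm_inj : Function.Injective ρ.perm := by
  intro g h hgh
  apply Units.ext
  apply ρ.inj
  intro x
  exact congrFun (congrArg (fun e : Equiv.Perm Ω => (e : Ω → Ω)) hgh) x

theorem polish [TopologicalSpace Ω] [DiscreteTopology Ω] [Countable Ω] :
    PolishSpace (PG ρ.perm) := by
  refine polishSpace_PG _ ρ.perm_inj ?_
  intro f g hfg
  classical
  obtain ⟨p, hp⟩ := ρ.closed f (fun F => by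
    obtain ⟨h, hh⟩ := hfg F
    exact ⟨h, fun x hx => (hh x hx).1⟩)
  obtain ⟨q, hq⟩ := ρ.closed g (fun F => by
    obtain ⟨h, hh⟩ := hfg F
    exact ⟨((h⁻¹ : Mˣ) : M), fun x hx => (hh x hx).2⟩)
  have h1 : p * q = 1 := by
    apply ρ.inj
    intro x
    rw [ρ.mul, ρ.one, hp, hq]
    obtain ⟨h, hh⟩ := hfg {x, g x}
    have e1 := (hh x (by simp)).2
    have e2 := (hh (g x) (by simp)).1
    rw [← e2, ← e1]
    exact (ρ.perm h).apply_symm_apply x
  have h2 : q * p = 1 := by
    apply ρ.inj
    intro x
    rw [ρ.mul, ρ.one, hp, hq]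
    obtain ⟨h, hh⟩ := hfg {x, f x}
    have e1 := (hh x (by simp)).1
    have e2 := (hh (f x) (by simp)).2
    rw [← e2, ← e1]
    exact (ρ.perm h).symm_apply_apply x
  exact ⟨⟨p, q, h1, h2⟩, funext hp, funext hq⟩

end Repn

end Q202.Rec
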