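import Pool.Agent.Q202.Rec.Inv
import Mathlib.ModelTheory.Definability
import Mathlib.Topology.Constructions
import Mathlib.Topology.Homeomorph.Lemmas

/-!
# Clones, closed clones, clone isomorphisms, polymorphism clones

Arities are positive: `Op Ω n` is the set of the `(n+1)`-ary operations on `Ω`.
-/

set_option autoImplicit false
set_option linter.unusedSectionVars false

namespace Q202.Rec

open Topology Filter

universe u v w

/-- The `(n+1)`-ary operations on `Ω`; it carries the product topology. -/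
abbrev Op (Ω : Type u) (n : ℕ) : Type u := (Fin (n + 1) → Ω) → Ω

/-- The `i`-th `(n+1)`-ary projection. -/
def proj (Ω : Type u) (n : ℕ) (i : Fin (n + 1)) : Op Ω n := fun x => x i

/-- The composition `f(g₀, …, g_k)` of a `(k+1)`-ary operation with `k+1` operations of the same
arity. -/
def comp {Ω : Type u} {k n : ℕ} (f : Op Ω k) (g : Fin (k + 1) → Op Ω n) : Op Ω n :=
  fun x => f fun i => g i x

/-- A **clone** on `Ω`: a set of finitary operations of positive arity on `Ω` (`ops n` is the set
of its `(n+1)`-ary members) which contains the projections and is closed under composition. -/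
structure Clone (Ω : Type u) where
  ops : ∀ n : ℕ, Set (Op Ω n)
  proj_mem : ∀ n i, proj Ω n i ∈ ops n
  comp_mem : ∀ {k n : ℕ} (f : Op Ω k) (g : Fin (k + 1) → Op Ω n), f ∈ ops k →
    (∀ i, g i ∈ ops n) → comp f g ∈ ops n

/-- The clone as a subset of the set `Σ n, Op Ω n` of all finitary operations; the latter carries
the sum topology of the product topologies, the topology of pointwise convergence. -/
def Clone.carrier {Ω : Type u} (C : Clone Ω) : Set (Σ n : ℕ, Op Ω n) := {p | p.2 ∈ C.ops p.1}

/-- A **clone isomorphism**: a family of bijections `map n` between the `(n+1)`-ary parts which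
sends each projection to the corresponding projection and commutes with composition. -/
structure CloneIso {Ω : Type u} {Ω' : Type v} (C : Clone Ω) (D : Clone Ω') where
  map : ∀ n : ℕ, C.ops n → D.ops n
  bij : ∀ n, Function.Bijective (map n)
  map_proj : ∀ n i, (map n ⟨proj Ω n i, C.proj_mem n i⟩ : Op Ω' n) = proj Ω' n i
  map_comp : ∀ {k n : ℕ} (f : C.ops k) (g : Fin (k + 1) → C.ops n),
    (map n ⟨comp f.1 (fun i => (g i).1), C.comp_mem _ _ f.2 fun i => (g i).2⟩ : Op Ω' n) =
      comp (map k f).1 fun i => (map n (g i)).1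

/-- The map between the sets of all operations of the two clones given by a clone isomorphism. -/
def CloneIso.toMap {Ω : Type u} {Ω' : Type v} {C : Clone Ω} {D : Clone Ω'} (ξ : CloneIso C D) :
    C.carrier → D.carrier :=
  fun p => ⟨⟨p.1.1, (ξ.map p.1.1 ⟨p.1.2, p.2⟩).1⟩, (ξ.map p.1.1 ⟨p.1.2, p.2⟩).2⟩

/-- The closed clone `C` on `Ω` has **automatic homeomorphicity with respect to the closed clones
on `Ω'`** : every clone isomorphism from `C` onto a closed clone on `Ω'` is a homeomorphism. -/
def AutoHomeo {Ω : Type u} [TopologicalSpace Ω] (C : Clone Ω) (Ω' : Type v)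
    [TopologicalSpace Ω'] : Prop :=
  ∀ D : Clone Ω', IsClosed D.carrier → ∀ ξ : CloneIso C D, IsHomeomorph ξ.toMap

/-- The **polymorphism clone** of a relational structure with domain `Ω`. -/
def Pol (L : FirstOrder.Language.{u, v}) (Ω : Type w) [L.Structure Ω] : Clone Ω where
  ops n := {f | ∀ (m : ℕ) (R : L.Relations m) (r : Fin (n + 1) → Fin m → Ω),
    (∀ i, FirstOrder.Language.Structure.RelMap R (r i)) →
      FirstOrder.Language.Structure.RelMap R fun j => f fun i => r i j}
  proj_mem _ i := fun _ _ _ h => h i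
  comp_mem _ _ hf hg := fun m R r h => hf m R _ fun i => hg i m R r h

/-! ### Closedness in terms of finite sets -/

section Closed

variable {Ω : Type u} [TopologicalSpace Ω] [DiscreteTopology Ω]

theorem Clone.isClosed_ops {C : Clone Ω} (hC : IsClosed C.carrier) (n : ℕ) :
    IsClosed (C.ops n) :=
  hC.preimage (continuous_sigmaMk (σ := fun n => Op Ω n) (i := n))

theorem mem_of_isClosed {X : Type v} {s : Set (X → Ω)} (hs : IsClosed s) {f : X → Ω}
    (h : ∀ F : Finset X, ∃ g ∈ s, ∀ x ∈ F, g x = f x) : f ∈ s := by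
  rw [← hs.closure_eq, mem_closure_iff]
  intro o ho hfo
  rw [isOpen_pi_iff] at ho
  obtain ⟨I, u, hu, hI⟩ := ho f hfo
  obtain ⟨g, hg, hgf⟩ := h I
  refine ⟨g, hI fun x hx => ?_, hg⟩
  rw [hgf x hx]
  exact (hu x hx).2

theorem isClosed_of_finset {X : Type v} {s : Set (X → Ω)}
    (h : ∀ f : X → Ω, (∀ F : Finset X, ∃ g ∈ s, ∀ x ∈ F, g x = f x) → f ∈ s) : IsClosed s := by
  classical
  rw [← closure_subset_iff_isClosed]
  intro f hf
  refine h f fun F => ?_
  rw [mem_closure_iff] at hf
  obtain ⟨g, hg1, hg2⟩ := hf (Set.pi (F : Set X) fun x => {f x})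
    (isOpen_set_pi F.finite_toSet fun x _ => isOpen_discrete _) (fun x _ => rfl)
  exact ⟨g, hg2, fun x hx => hg1 x hx⟩

theorem Clone.isClosed_carrier {C : Clone Ω} (hC : ∀ n, IsClosed (C.ops n)) :
    IsClosed C.carrier := by
  rw [isClosed_sigma_iff]
  exact hC

/-- continuity of a map between sets of functions, in terms of finite sets -/
theorem continuous_of_finset {X : Type v} {Ω' : Type w} [TopologicalSpace Ω']
    [DiscreteTopology Ω'] {X' : Type*} {s : Set (X → Ω)} {s' : Set (X' → Ω')} (φ : s → s')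
    (h : ∀ (t : s) (d : X'), ∃ F : Finset X, ∀ q : s, (∀ v ∈ F, q.1 v = t.1 v) →
      (φ q).1 d = (φ t).1 d) : Continuous φ := by
  classical
  refine Continuous.subtype_mk (continuous_pi fun d => ?_) _
  rw [continuous_iff_continuousAt]
  intro t
  obtain ⟨F, hF⟩ := h t d
  rw [ContinuousAt, nhds_discrete Ω', tendsto_pure]
  have h1 : IsOpen {q : s | ∀ v ∈ F, q.1 v = t.1 v} := by
    have h2 : {q : s | ∀ v ∈ F, q.1 v = t.1 v} =
        Subtype.val ⁻¹' (Set.pi (F : Set X) fun x => {t.1 x}) := by
      ext q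
      simp [Set.mem_pi]
    rw [h2]
    exact (isOpen_set_pi F.finite_toSet fun x _ => isOpen_discrete _).preimage
      continuous_subtype_val
  filter_upwards [h1.mem_nhds fun v _ => rfl] with q hq
  exact hF q hq

end Closed

/-! ### A clone isomorphism whose components are homeomorphisms is a homeomorphism -/

/-- the clone as a sum of its parts -/
def Clone.sumEquiv {Ω : Type u} (C : Clone Ω) : (Σ n, C.ops n) ≃ C.carrier where
  toFun p := ⟨⟨p.1, p.2.1⟩, p.2.2⟩
  invFun p := ⟨p.1.1, ⟨p.1.2, p.2⟩⟩
  left_inv _ := rfl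
  right_inv _ := rfl

theorem Clone.continuous_sumEquiv {Ω : Type u} [TopologicalSpace Ω] (C : Clone Ω) :
    Continuous C.sumEquiv := by
  refine Continuous.subtype_mk ?_ _
  rw [continuous_sigma_iff]
  intro n
  exact continuous_sigmaMk.comp continuous_subtype_val

theorem Clone.isOpenMap_sumEquiv {Ω : Type u} [TopologicalSpace Ω] (C : Clone Ω) :
    IsOpenMap C.sumEquiv := by
  rw [isOpenMap_sigma]
  intro n U hU
  obtain ⟨V, hV, rfl⟩ := isOpen_induced_iff.1 hU
  refine isOpen_induced_iff.2 ⟨Sigma.mk n '' V, isOpenMap_sigmaMk V hV, ?_⟩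
  ext p
  constructor
  · rintro ⟨f, hf, hp⟩
    obtain ⟨p, hp2⟩ := p
    dsimp only at hp
    subst hp
    exact ⟨⟨f, hp2⟩, hf, rfl⟩
  · rintro ⟨f, hf, rfl⟩
    exact ⟨f.1, hf, rfl⟩

theorem Clone.isHomeomorph_sumEquiv {Ω : Type u} [TopologicalSpace Ω] (C : Clone Ω) :
    IsHomeomorph C.sumEquiv :=
  ⟨C.continuous_sumEquiv, C.isOpenMap_sumEquiv, C.sumEquiv.bijective⟩

theorem CloneIso.isHomeomorph {Ω : Type u} {Ω' : Type v} [TopologicalSpace Ω]
    [TopologicalSpace Ω'] {C : Clone Ω} {D : Clone Ω'} (ξ : CloneIso C D)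
    (h : ∀ n, IsHomeomorph (ξ.map n)) : IsHomeomorph ξ.toMap := by
  have h1 : IsHomeomorph (Sigma.map id fun n => ξ.map n : (Σ n, C.ops n) → Σ n, D.ops n) := by
    refine ⟨?_, ?_, ?_⟩
    · exact Continuous.sigma_map fun n => (h n).continuous
    · rw [isOpenMap_sigma_map]
      exact fun n => (h n).isOpenMap
    · exact ⟨Function.injective_id.sigma_map fun n => (h n).bijective.1,
        Function.surjective_id.sigma_map fun n => (h n).bijective.2⟩
  have h2 : (ξ.toMap : C.carrier → D.carrier) =
      D.sumEquiv ∘ (Sigma.map id fun n => ξ.map n) ∘ C.sumEquiv.symm := rfl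
  rw [h2]
  exact D.isHomeomorph_sumEquiv.comp (h1.comp
    (C.sumEquiv.toHomeomorphOfContinuousOpen C.continuous_sumEquiv
      C.isOpenMap_sumEquiv).symm.isHomeomorph)

end Q202.Rec
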