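import Pool.Agent.Q202.Rec.Clone

/-!
# The monoid of unary operations of a closed clone, and its two representations
-/

set_option autoImplicit false
set_option linter.unusedSectionVars false

namespace Q202.Rec

open Topology Filter

universe u v w

variable {Ω : Type u} {Ω' : Type v}

/-- the unary operations of a clone form a monoid -/
instance Clone.monoid (C : Clone Ω) : Monoid (C.ops 0) where
  mul p q := ⟨comp p.1 fun _ => q.1, C.comp_mem _ _ p.2 fun _ => q.2⟩
  one := ⟨proj Ω 0 0, C.proj_mem 0 0⟩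
  mul_assoc _ _ _ := rfl
  one_mul _ := rfl
  mul_one p := Subtype.ext (funext fun v => congrArg p.1 (funext fun i => by
    rw [Subsingleton.elim (α := Fin 1) i 0]; rfl))

/-- evaluation of unary operations -/
theorem fin_one_const {α : Type*} (v : Fin (0 + 1) → α) : (fun _ => v 0) = v :=
  funext fun i => by rw [Subsingleton.elim (α := Fin 1) i 0]

/-- composition on the left with a unary operation -/
def Clone.left (C : Clone Ω) (n : ℕ) (p : C.ops 0) (t : C.ops n) : C.ops n :=
  ⟨comp p.1 fun _ => t.1, C.comp_mem _ _ p.2 fun _ => t.2⟩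

/-- diagonal composition on the right with a unary operation -/
def Clone.right (C : Clone Ω) (n : ℕ) (t : C.ops n) (p : C.ops 0) : C.ops n :=
  ⟨comp t.1 fun i => comp p.1 fun _ => proj Ω n i,
    C.comp_mem _ _ t.2 fun i => C.comp_mem _ _ p.2 fun _ => C.proj_mem n i⟩

section Top

variable [TopologicalSpace Ω] [DiscreteTopology Ω] [TopologicalSpace Ω'] [DiscreteTopology Ω']

/-- the natural representation -/
def Clone.repn (C : Clone Ω) (hC : IsClosed C.carrier) : Repn (C.ops 0) Ω where
  act p x := p.1 fun _ => x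
  one _ := rfl
  mul _ _ _ := rfl
  inj p q h := Subtype.ext (funext fun v => by
    have := h (v 0)
    rwa [fin_one_const] at this)
  closed f hf := by
    have h1 : (fun v : Fin (0 + 1) → Ω => f (v 0)) ∈ C.ops 0 := by
      classical
      refine mem_of_isClosed (Clone.isClosed_ops hC 0) fun F => ?_
      obtain ⟨p, hp⟩ := hf (F.image fun v => v 0)
      refine ⟨p.1, p.2, fun v hv => ?_⟩
      have := hp (v 0) (Finset.mem_image_of_mem _ hv)
      rwa [fin_one_const] at this
    exact ⟨⟨_, h1⟩, fun x => rfl⟩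

variable {C : Clone Ω} {D : Clone Ω'} (ξ : CloneIso C D)

theorem CloneIso.map_mul (p q : C.ops 0) : ξ.map 0 (p * q) = ξ.map 0 p * ξ.map 0 q :=
  Subtype.ext (ξ.map_comp p fun _ => q)

theorem CloneIso.map_left (n : ℕ) (p : C.ops 0) (t : C.ops n) (v : Fin (n + 1) → Ω') :
    (ξ.map n (C.left n p t)).1 v = (ξ.map 0 p).1 fun _ => (ξ.map n t).1 v :=
  congrFun (ξ.map_comp p fun _ => t) v

theorem CloneIso.map_right (n : ℕ) (t : C.ops n) (p : C.ops 0) (v : Fin (n + 1) → Ω') :
    (ξ.map n (C.right n t p)).1 v = (ξ.map n t).1 fun j => (ξ.map 0 p).1 fun _ => v j := by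
  have h1 := ξ.map_comp t fun i =>
    ⟨comp p.1 fun _ => proj Ω n i, C.comp_mem _ _ p.2 fun _ => C.proj_mem n i⟩
  refine (congrFun h1 v).trans (congrArg (ξ.map n t).1 (funext fun j => ?_))
  have h2 := ξ.map_comp p fun _ => ⟨proj Ω n j, C.proj_mem n j⟩
  exact (congrFun h2 v).trans (congrArg (ξ.map 0 p).1 (funext fun _ =>
    congrFun (ξ.map_proj n j) v))

/-- the representation through a clone isomorphism -/
def CloneIso.repn (hD : IsClosed D.carrier) : Repn (C.ops 0) Ω' where
  act p x := (ξ.map 0 p).1 fun _ => x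
  one x := congrFun (ξ.map_proj 0 0) _
  mul p q x := by rw [ξ.map_mul]; rfl
  inj p q h := (ξ.bij 0).1 (Subtype.ext (funext fun v => by
    have := h (v 0)
    rwa [fin_one_const] at this))
  closed f hf := by
    have h1 : (fun v : Fin (0 + 1) → Ω' => f (v 0)) ∈ D.ops 0 := by
      classical
      refine mem_of_isClosed (Clone.isClosed_ops hD 0) fun F => ?_
      obtain ⟨p, hp⟩ := hf (F.image fun v => v 0)
      refine ⟨_, (ξ.map 0 p).2, fun v hv => ?_⟩
      have := hp (v 0) (Finset.mem_image_of_mem _ hv)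
      rwa [fin_one_const] at this
    obtain ⟨p, hp⟩ := (ξ.bij 0).2 ⟨_, h1⟩
    exact ⟨p, fun x => by rw [hp]⟩

/-- If all the components of a clone isomorphism between closed clones are continuous and the
first clone contains an oligomorphic permutation group, then it is a homeomorphism. -/
theorem CloneIso.isHomeomorph_of_continuous [Countable Ω] [Nonempty Ω]
    (hC : IsClosed C.carrier) (hD : IsClosed D.carrier)
    {G : Subgroup (Equiv.Perm Ω)} (hG : Q202.MinTop.Oligo G)
    (hι : ∀ g ∈ G, (fun v : Fin (0 + 1) → Ω => g (v 0)) ∈ C.ops 0)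
    (hc : ∀ (n : ℕ) (t : C.ops n) (d : Fin (n + 1) → Ω'), ∃ F : Finset (Fin (n + 1) → Ω),
      ∀ s : C.ops n, (∀ v ∈ F, s.1 v = t.1 v) → (ξ.map n s).1 d = (ξ.map n t).1 d) :
    IsHomeomorph ξ.toMap := by
  classical
  refine ξ.isHomeomorph fun n => ?_
  have hcont : Continuous (ξ.map n) := continuous_of_finset _ (hc n)
  have hinv : ∀ (t : C.ops n) (v : Fin (n + 1) → Ω), ∃ F : Finset (Fin (n + 1) → Ω'),
      ∀ s : C.ops n, (∀ d ∈ F, (ξ.map n s).1 d = (ξ.map n t).1 d) → s.1 v = t.1 v := by
    refine continuous_inv (C.repn hC) (ξ.repn hD) hG ?_ (C.left n) (fun t v => t.1 v)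
      (fun t v => (ξ.map n t).1 v) ?_ ?_ ?_ ?_ (hc n) ?_
    · intro g hg
      exact ⟨⟨_, hι g hg⟩, fun x => rfl⟩
    · intro s t h
      exact (ξ.bij n).1 (Subtype.ext (funext h))
    · intro f hf
      have h1 : f ∈ C.ops n := mem_of_isClosed (Clone.isClosed_ops hC n) fun F => by
        obtain ⟨t, ht⟩ := hf F
        exact ⟨t.1, t.2, ht⟩
      exact ⟨⟨f, h1⟩, fun v => rfl⟩
    · intro p t v
      rfl
    · intro p t v
      exact ξ.map_left n p t v
    · intro m w
      obtain ⟨F, hF⟩ := hc 0 m (fun _ => w)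
      refine ⟨F.image fun v => v 0, fun p hp => hF p fun v hv => ?_⟩
      have := hp (v 0) (Finset.mem_image_of_mem _ hv)
      change (p.1 fun _ => v 0) = m.1 fun _ => v 0 at this
      rwa [fin_one_const] at this
  let e : C.ops n ≃ D.ops n := Equiv.ofBijective _ (ξ.bij n)
  have he : ∀ t, e t = ξ.map n t := fun t => rfl
  have hcont' : Continuous e.symm := by
    refine continuous_of_finset (⇑e.symm) fun t v => ?_
    obtain ⟨F, hF⟩ := hinv (e.symm t) v
    refine ⟨F, fun q hq => hF (e.symm q) fun d hd => ?_⟩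
    rw [← he, ← he, e.apply_symm_apply, e.apply_symm_apply]
    exact hq d hd
  exact (show (C.ops n) ≃ₜ (D.ops n) from
    { toEquiv := e
      continuous_toFun := hcont
      continuous_invFun := hcont' }).isHomeomorph

end Top

end Q202.Rec
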