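import Pool.Agent.Q202.MinTop
import Pool.Agent.Q202.Rec.Repn
import Mathlib.Order.Filter.AtTopBot.Basic
import Mathlib.Data.Countable.Defs

/-!
# Continuity of the inverse

If a closed monoid contains an oligomorphic permutation group, then a continuous faithful
representation of the monoid (and of a set of operations on which it acts) is a homeomorphism.
-/

set_option autoImplicit false
set_option linter.unusedSectionVars false

namespace Q202.Rec

open Filter Q202.MinTop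

universe u v w x

/-- The main combinatorial step. -/
theorem exists_limit {Ω : Type v} {S : Type u} {G : Subgroup (Equiv.Perm Ω)} (hG : Oligo G)
    (ρ : S → ℕ → Ω) (U : Ultrafilter S) (e : ℕ → Ω) :
    ∃ k j : ℕ → Ω, ∀ n, ∀ᶠ h in (U : Filter S), ∃ γ ∈ G, ∀ i < n,
      γ (ρ h i) = k i ∧ γ (e i) = j i := by
  classical
  have h1 : ∀ n, ∃ x : Fin n ⊕ Fin n → Ω, ∀ᶠ h in (U : Filter S), ∃ g ∈ G,
      ∀ i : Fin n, g (x (Sum.inl i)) = ρ h i ∧ g (x (Sum.inr i)) = e i := by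
    intro n
    obtain ⟨s, hs, h⟩ := hG.sum n
    have h2 : (⋃ x ∈ s, {h : S | ∃ g ∈ G, ∀ i : Fin n, g (x (Sum.inl i)) = ρ h i ∧
        g (x (Sum.inr i)) = e i}) ∈ U := by
      refine Filter.mem_of_superset (Filter.univ_mem (f := (U : Filter S))) ?_
      intro t _
      simp only [Set.mem_iUnion]
      obtain ⟨x, hx, g, hg, hgx⟩ := h (Sum.elim (fun i => ρ t i) (fun i => e i))
      exact ⟨x, hx, g, hg, fun i => ⟨hgx (Sum.inl i), hgx (Sum.inr i)⟩⟩
    rw [Ultrafilter.finite_biUnion_mem_iff hs] at h2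
    obtain ⟨x, _, hx⟩ := h2
    exact ⟨x, hx⟩
  choose x hx using h1
  have h2 : ∀ n, ∃ δ ∈ G, ∀ i : Fin n, δ (x (n + 1) (Sum.inl i.castSucc)) = x n (Sum.inl i) ∧
      δ (x (n + 1) (Sum.inr i.castSucc)) = x n (Sum.inr i) := by
    intro n
    obtain ⟨h, ⟨g, hg, hg'⟩, ⟨g2, hg2, hg2'⟩⟩ := ((hx n).and (hx (n + 1))).exists
    refine ⟨g⁻¹ * g2, G.mul_mem (G.inv_mem hg) hg2, fun i => ?_⟩
    have h3 := hg' i
    have h4 := hg2' i.castSucc
    constructor
    · rw [Equiv.Perm.mul_apply, Equiv.Perm.inv_eq_iff_eq, h4.1, h3.1]; rfl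
    · rw [Equiv.Perm.mul_apply, Equiv.Perm.inv_eq_iff_eq, h4.2, h3.2]; rfl
  choose δ hδ hδ' using h2
  let Γ : ℕ → Equiv.Perm Ω := fun n => Nat.rec 1 (fun n γ => γ * δ n) n
  have hΓs : ∀ n, Γ (n + 1) = Γ n * δ n := fun n => rfl
  have hΓ : ∀ n, Γ n ∈ G := by
    intro n
    induction n with
    | zero => exact G.one_mem
    | succ n ih => rw [hΓs]; exact G.mul_mem ih (hδ n)
  let k : ℕ → Ω := fun i => Γ (i + 1) (x (i + 1) (Sum.inl (Fin.last i)))
  let j : ℕ → Ω := fun i => Γ (i + 1) (x (i + 1) (Sum.inr (Fin.last i)))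
  have hkj : ∀ n (i : Fin n), Γ n (x n (Sum.inl i)) = k i ∧ Γ n (x n (Sum.inr i)) = j i := by
    intro n
    induction n with
    | zero => intro i; exact i.elim0
    | succ n ih =>
      intro i
      refine Fin.lastCases ?_ (fun i => ?_) i
      · exact ⟨rfl, rfl⟩
      · rw [hΓs, Equiv.Perm.mul_apply, Equiv.Perm.mul_apply, (hδ' n i).1, (hδ' n i).2]
        exact ih i
  refine ⟨k, j, fun n => ?_⟩
  filter_upwards [hx n]
  rintro h ⟨g, hg, hg'⟩
  refine ⟨Γ n * g⁻¹, G.mul_mem (hΓ n) (G.inv_mem hg), fun i hi => ?_⟩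
  have h3 := hg' ⟨i, hi⟩
  have h4 := hkj n ⟨i, hi⟩
  constructor
  · rw [Equiv.Perm.mul_apply, ← h3.1, ← h4.1]
    congr 1
    exact g.symm_apply_apply _
  · rw [Equiv.Perm.mul_apply, ← h3.2, ← h4.2]
    congr 1
    exact g.symm_apply_apply _

/-- the version for countable index sets -/
theorem exists_limit' {Ω : Type v} [Countable Ω] [Nonempty Ω] {X : Type w} [Countable X]
    [Nonempty X] {S : Type u} {G : Subgroup (Equiv.Perm Ω)} (hG : Oligo G)
    (ρ : S → X → Ω) (U : Ultrafilter S) :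
    ∃ (k : X → Ω) (j : Ω → Ω), ∀ (A : Finset X) (B : Finset Ω), ∀ᶠ h in (U : Filter S), ∃ γ ∈ G,
      (∀ v ∈ A, γ (ρ h v) = k v) ∧ ∀ b ∈ B, γ b = j b := by
  classical
  obtain ⟨x, hx⟩ := exists_surjective_nat X
  obtain ⟨e, he⟩ := exists_surjective_nat Ω
  obtain ⟨k, j, hkj⟩ := exists_limit hG (fun s i => ρ s (x i)) U e
  -- the values do not depend on the enumerations
  choose x' hx' using hx
  choose e' he' using he
  refine ⟨fun v => k (x' v), fun b => j (e' b), fun A B => ?_⟩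
  obtain ⟨N, hN⟩ : ∃ N, (∀ v ∈ A, x' v < N) ∧ ∀ b ∈ B, e' b < N := by
    refine ⟨max (A.sup x') (B.sup e') + 1, fun v hv => ?_, fun b hb => ?_⟩
    · exact Nat.lt_succ_of_le ((Finset.le_sup hv).trans (le_max_left _ _))
    · exact Nat.lt_succ_of_le ((Finset.le_sup hb).trans (le_max_right _ _))
  filter_upwards [hkj N]
  rintro s ⟨γ, hγ, h⟩
  refine ⟨γ, hγ, fun v hv => ?_, fun b hb => ?_⟩
  · have := (h _ (hN.1 v hv)).1
    simp only [hx'] at this
    exact this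
  · have := (h _ (hN.2 b hb)).2
    rw [he'] at this
    exact this

theorem continuous_inv {M : Type u} [Monoid M] {Ω : Type v} {Ω' : Type w} [Countable Ω]
    [Nonempty Ω] (ρ : Repn M Ω) (ρ' : Repn M Ω') {G : Subgroup (Equiv.Perm Ω)} (hG : Oligo G)
    (hι : ∀ g ∈ G, ∃ p, ∀ x, ρ.act p x = g x)
    {X : Type} {X' : Type} {T : Type x} (L : M → T → T)
    (r : T → (X → Ω) → Ω) (r' : T → (X' → Ω') → Ω') [Countable (X → Ω)]
    (hinj' : ∀ s t, (∀ v, r' s v = r' t v) → s = t)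
    (hcl : ∀ f : (X → Ω) → Ω, (∀ F : Finset (X → Ω), ∃ t, ∀ v ∈ F, r t v = f v) →
      ∃ t, ∀ v, r t v = f v)
    (hL : ∀ p t v, r (L p t) v = ρ.act p (r t v))
    (hL' : ∀ p t v, r' (L p t) v = ρ'.act p (r' t v))
    (hc : ∀ t d, ∃ F : Finset (X → Ω), ∀ s, (∀ v ∈ F, r s v = r t v) → r' s d = r' t d)
    (hcM : ∀ m w, ∃ F : Finset Ω, ∀ p, (∀ x ∈ F, ρ.act p x = ρ.act m x) →
      ρ'.act p w = ρ'.act m w) (t : T) (v : X → Ω) :
    ∃ F : Finset (X' → Ω'), ∀ s, (∀ d ∈ F, r' s d = r' t d) → r s v = r t v := by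
  classical
  by_contra hcon
  push Not at hcon
  choose s hs hs' using hcon
  obtain ⟨U, hU⟩ := Ultrafilter.exists_le (atTop : Filter (Finset (X' → Ω')))
  have hUs : ∀ d, ∀ᶠ F in (U : Filter (Finset (X' → Ω'))), r' (s F) d = r' t d := by
    intro d
    refine hU ?_
    filter_upwards [eventually_ge_atTop ({d} : Finset (X' → Ω'))] with F hF
    exact hs F d (hF (Finset.mem_singleton_self d))
  have : Nonempty (X → Ω) := ⟨v⟩
  obtain ⟨k, j, hkj⟩ := exists_limit' hG (fun F w => r (s F) w) U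
  obtain ⟨tk, htk⟩ : ∃ tk, ∀ w, r tk w = k w := by
    refine hcl k fun A => ?_
    obtain ⟨F, γ, hγ, h1, _⟩ := (hkj A ∅).exists
    obtain ⟨p, hp⟩ := hι γ hγ
    exact ⟨L p (s F), fun w hw => by rw [hL, hp]; exact h1 w hw⟩
  obtain ⟨mj, hmj⟩ : ∃ mj, ∀ b, ρ.act mj b = j b := by
    refine ρ.closed j fun B => ?_
    obtain ⟨F, γ, hγ, _, h1⟩ := (hkj ∅ B).exists
    obtain ⟨p, hp⟩ := hι γ hγ
    exact ⟨p, fun b hb => by rw [hp]; exact h1 b hb⟩
  have hkey : tk = L mj t := by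
    apply hinj'
    intro d
    rw [hL']
    obtain ⟨A, hA⟩ := hc tk d
    obtain ⟨B, hB⟩ := hcM mj (r' t d)
    obtain ⟨F, ⟨γ, hγ, h1, h2⟩, h3⟩ := ((hkj A B).and (hUs d)).exists
    obtain ⟨p, hp⟩ := hι γ hγ
    have e1 : r' (L p (s F)) d = r' tk d := hA _ fun w hw => by
      rw [hL, hp, htk]; exact h1 w hw
    have e2 : ρ'.act p (r' t d) = ρ'.act mj (r' t d) := hB _ fun b hb => by
      rw [hp, hmj]; exact h2 b hb
    rw [← e1, hL', h3, e2]
  obtain ⟨F, γ, _, h1, h2⟩ := (hkj {v} {r t v}).exists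
  have e1 := h1 v (Finset.mem_singleton_self v)
  have e2 := h2 (r t v) (Finset.mem_singleton_self _)
  have e3 : k v = j (r t v) := by
    rw [← htk, hkey, hL, hmj]
  rw [e3, ← e2] at e1
  exact hs' F (γ.injective e1)

end Q202.Rec
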