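import Pool.Agent.H330.Ramsey
import Mathlib.Data.Finset.Sort
import Mathlib.Order.OrderIsoNat

/-!
# Homogeneous kernels

For every function `g` of `n` variables on `ℕ` and every finite set `A` there is an injective map
`p : ℕ → ℕ`, the identity on `A`, such that the kernel of `g ∘ p` is one of finitely many
equivalence relations, which do not depend on `g`.
-/

set_option autoImplicit false

namespace Q202.Rec

open Pool.Agent.H330

/-- Ramsey's theorem for kernels of functions of several variables. -/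
theorem exists_kernel (n : ℕ) (A : Finset ℕ) : ∃ (C : Type) (_ : Finite C)
    (Ker : C → (Fin n → ℕ) → (Fin n → ℕ) → Prop), ∀ g : (Fin n → ℕ) → ℕ,
      ∃ (p : ℕ → ℕ) (c : C), Function.Injective p ∧ (∀ x ∈ A, p x = x) ∧
        ∀ v w : Fin n → ℕ, g (fun j => p (v j)) = g (fun j => p (w j)) ↔ Ker c v w := by
  classical
  -- templates
  let U : Type := Fin n → (A ⊕ Fin (2 * n))
  let ev : (Fin (2 * n) → ℕ) → U → (Fin n → ℕ) := fun o u j =>
    match u j with
    | Sum.inl a => (a : ℕ)
    | Sum.inr i => o i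
  let C : Type := U → U → Prop
  -- a set of size `2 n` which contains all entries
  have hW : ∀ v w : Fin n → ℕ, ∃ W : Finset ℕ, W.card = 2 * n ∧ (∀ j, v j ∈ W) ∧ ∀ j, w j ∈ W := by
    intro v w
    have h1 : (Finset.univ.image v ∪ Finset.univ.image w).card ≤ 2 * n := by
      refine (Finset.card_union_le _ _).trans ?_
      have h2 := Finset.card_image_le (s := (Finset.univ : Finset (Fin n))) (f := v)
      have h3 := Finset.card_image_le (s := (Finset.univ : Finset (Fin n))) (f := w)
      rw [Finset.card_univ, Fintype.card_fin] at h2 h3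
      omega
    obtain ⟨W, hW, hcard⟩ := Infinite.exists_superset_card_eq _ _ h1
    exact ⟨W, hcard, fun j => hW (Finset.mem_union_left _ (Finset.mem_image_of_mem v
      (Finset.mem_univ j))), fun j => hW (Finset.mem_union_right _ (Finset.mem_image_of_mem w
      (Finset.mem_univ j)))⟩
  choose W hWc hWv hWw using hW
  let o : ∀ v w : Fin n → ℕ, Fin (2 * n) → ℕ := fun v w => (W v w).orderEmbOfFin (hWc v w)
  have hrange : ∀ (v w : Fin n → ℕ) (x : ℕ), x ∈ W v w → ∃ i, o v w i = x := by
    intro v w x hx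
    have : x ∈ Set.range ((W v w).orderEmbOfFin (hWc v w)) := by
      rw [Finset.range_orderEmbOfFin]; exact Finset.mem_coe.2 hx
    exact this
  -- the template of a tuple with entries in `W v w`
  have hT : ∀ (v w z : Fin n → ℕ), (∀ j, z j ∈ W v w) → ∃ u : U, ∀ j,
      (∃ a, u j = Sum.inl a ∧ (a : ℕ) = z j) ∨ (z j ∉ A ∧ ∃ i, u j = Sum.inr i ∧ o v w i = z j) := by
    intro v w z hz
    have : ∀ j, ∃ s : A ⊕ Fin (2 * n), (∃ a, s = Sum.inl a ∧ (a : ℕ) = z j) ∨
        (z j ∉ A ∧ ∃ i, s = Sum.inr i ∧ o v w i = z j) := by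
      intro j
      by_cases hj : z j ∈ A
      · exact ⟨Sum.inl ⟨z j, hj⟩, Or.inl ⟨_, rfl, rfl⟩⟩
      · obtain ⟨i, hi⟩ := hrange v w (z j) (hz j)
        exact ⟨Sum.inr i, Or.inr ⟨hj, i, rfl, hi⟩⟩
    choose u hu using this
    exact ⟨u, hu⟩
  choose t ht using fun v w => hT v w v (hWv v w)
  choose t' ht' using fun v w => hT v w w (hWw v w)
  refine ⟨C, inferInstance, fun c v w => c (t v w) (t' v w), fun g => ?_⟩
  -- the colouring
  let col : Finset ℕ → C := fun K u u' =>
    ∃ h : K.card = 2 * n, g (ev (K.orderEmbOfFin h) u) = g (ev (K.orderEmbOfFin h) u')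
  obtain ⟨N, hN⟩ : ∃ N, ∀ x ∈ A, x < N :=
    ⟨A.sup id + 1, fun x hx => Nat.lt_succ_of_le (Finset.le_sup (f := id) hx)⟩
  -- shift the colouring above `A`
  let sh : ℕ ↪o ℕ := OrderEmbedding.ofStrictMono (fun x => N + x) (fun x y h => by
    change N + x < N + y; omega)
  obtain ⟨H, c, hH, hc⟩ := infinite_ramsey (A := ℕ) (C := C) (2 * n)
    (fun K => col (K.map sh.toEmbedding))
  have hHinf : Infinite H := hH.to_subtype
  have hmem : ∀ x, Nat.orderEmbeddingOfSet H x ∈ H := by
    intro x
    have h1 : Nat.orderEmbeddingOfSet H x ∈ Set.range (Nat.orderEmbeddingOfSet H) := ⟨x, rfl⟩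
    rwa [Nat.orderEmbeddingOfSet_range] at h1
  let e : ℕ ↪o ℕ := (Nat.orderEmbeddingOfSet H).trans sh
  have heH : ∀ x, ∃ y ∈ H, e x = sh y := fun x =>
    ⟨Nat.orderEmbeddingOfSet H x, hmem x, rfl⟩
  have heN : ∀ x, N ≤ e x := fun x => Nat.le_add_right N _
  refine ⟨fun x => if x ∈ A then x else e x, c, ?_, fun x hx => if_pos hx, ?_⟩
  · intro x y hxy
    by_cases hx : x ∈ A
    · by_cases hy : y ∈ A
      · simpa [hx, hy] using hxy
      · simp only [hx, hy, if_true, if_false] at hxy
        have h1 := hN x hx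
        have h2 := heN y
        omega
    · by_cases hy : y ∈ A
      · simp only [hx, hy, if_true, if_false] at hxy
        have h1 := hN y hy
        have h2 := heN x
        omega
      · simp only [hx, hy, if_false] at hxy
        exact e.injective hxy
  · intro v w
    let Wv := W v w
    let K' : Finset ℕ := Wv.map (Nat.orderEmbeddingOfSet H).toEmbedding
    let K : Finset ℕ := K'.map sh.toEmbedding
    have hK'c : K'.card = 2 * n := by rw [Finset.card_map]; exact hWc v w
    have hKc : K.card = 2 * n := by rw [Finset.card_map]; exact hK'c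
    have hK'H : (K' : Set ℕ) ⊆ H := by
      intro x hx
      obtain ⟨y, _, rfl⟩ := Finset.mem_map.1 (Finset.mem_coe.1 hx)
      exact hmem y
    have hcol : col K = c := hc K' hK'c hK'H
    -- the order embedding of `K`
    have ho : ∀ i, K.orderEmbOfFin hKc i = e (o v w i) := by
      intro i
      have h1 : (fun i => e (o v w i)) = ⇑(K.orderEmbOfFin hKc) := by
        refine Finset.orderEmbOfFin_unique hKc (fun i => ?_) ?_
        · refine Finset.mem_map.2 ⟨Nat.orderEmbeddingOfSet H (o v w i), ?_, rfl⟩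
          exact Finset.mem_map.2 ⟨o v w i, Finset.orderEmbOfFin_mem _ _ _, rfl⟩
        · exact e.strictMono.comp ((W v w).orderEmbOfFin (hWc v w)).strictMono
      exact (congrFun h1 i).symm
    have hev : ∀ (z : Fin n → ℕ) (u : U), (∀ j, (∃ a, u j = Sum.inl a ∧ (a : ℕ) = z j) ∨
        (z j ∉ A ∧ ∃ i, u j = Sum.inr i ∧ o v w i = z j)) →
        ev (K.orderEmbOfFin hKc) u = fun j => if z j ∈ A then z j else e (z j) := by
      intro z u hu
      funext j
      rcases hu j with ⟨a, ha, ha'⟩ | ⟨hz, i, hi, hi'⟩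
      · have h1 : z j ∈ A := ha' ▸ a.2
        simp only [ev, ha, h1, if_true]
        exact ha'
      · simp only [ev, hi, hz, if_false]
        rw [ho, hi']
    have h1 := hev v (t v w) (ht v w)
    have h2 := hev w (t' v w) (ht' v w)
    change _ ↔ c (t v w) (t' v w)
    rw [← hcol, ← h1, ← h2]
    exact ⟨fun h => ⟨hKc, h⟩, fun ⟨_, h⟩ => h⟩

end Q202.Rec
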