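import Pool.Agent.Q202.Rec.Sym
import Pool.Agent.Q202.Rec.Ram
import Mathlib.Order.Filter.Ultrafilter.Basic
import Mathlib.Order.Filter.Cofinite

/-!
# Continuity on the `n`-ary part

`T` is a closed set of `n`-ary operations on `ℕ`, closed under composition with the elements of a
closed monoid `M` which contains all permutations, and `r'` is another such representation of `T`.
Then `r'` is continuous.
-/

set_option autoImplicit false
set_option linter.unusedSectionVars false

namespace Q202.Rec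

open Filter

universe u v w

section

variable {M : Type u} [Monoid M] {Ω' : Type v} [TopologicalSpace Ω'] [DiscreteTopology Ω']
  [Countable Ω'] (ρ : Repn M ℕ) (ρ' : Repn M Ω')
  (hS : ∀ σ : Equiv.Perm ℕ, ∃ p, ∀ x, ρ.act p x = σ x)
  {n : ℕ} {T : Type w} (L : M → T → T) (R : T → M → T)
  (r : T → (Fin n → ℕ) → ℕ) (r' : T → (Fin n → Ω') → Ω')
  (hinj : ∀ s t, (∀ v, r s v = r t v) → s = t)
  (hcl : ∀ f : (Fin n → ℕ) → ℕ, (∀ F : Finset (Fin n → ℕ), ∃ t, ∀ v ∈ F, r t v = f v) →
    ∃ t, ∀ v, r t v = f v)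
  (hL : ∀ p t v, r (L p t) v = ρ.act p (r t v))
  (hR : ∀ t p v, r (R t p) v = r t (fun j => ρ.act p (v j)))
  (hL' : ∀ p t v, r' (L p t) v = ρ'.act p (r' t v))
  (hR' : ∀ t p v, r' (R t p) v = r' t (fun j => ρ'.act p (v j)))

include hS hL' hR' hL hR hinj

/-- composition with an injection which fixes the supports of the arguments -/
theorem r'_R_fix {A : Finset ℕ} {d : Fin n → Ω'} (hA : ∀ j, Supp ρ ρ' hS A (d j)) {p : M}
    (hp : Function.Injective (ρ.act p)) (hpA : ∀ x ∈ A, ρ.act p x = x) (t : T) :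
    r' (R t p) d = r' t d := by
  rw [hR']
  congr 1
  funext j
  exact inj_fix ρ ρ' hS hp (hA j) hpA

/-- the smallest support of a value consists of values on the image of an injection -/
theorem ms_range {A : Finset ℕ} {d : Fin n → Ω'} (hA : ∀ j, Supp ρ ρ' hS A (d j)) {p : M}
    (hp : Function.Injective (ρ.act p)) (hpA : ∀ x ∈ A, ρ.act p x = x) (t : T) (x : ℕ)
    (hx : x ∈ ms ρ ρ' hS (r' t d)) : ∃ v : Fin n → ℕ, r t (fun j => ρ.act p (v j)) = x := by
  classical
  let P : ℕ → Prop := fun y => ∃ v : Fin n → ℕ, r t (fun j => ρ.act p (v j)) = y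
  obtain ⟨γ₁, h1⟩ := exists_inj ρ hS (f := fun y => 2 * y) (fun a b h => by
    change 2 * a = 2 * b at h; omega)
  obtain ⟨γ₂, h2⟩ := exists_inj ρ hS (f := fun y => if P y then 2 * y else 2 * y + 1)
    (fun a b h => by
      by_cases ha : P a <;> by_cases hb : P b <;> simp only [ha, hb, if_true, if_false] at h <;>
        omega)
  have i1 : Function.Injective (ρ.act γ₁) := fun a b h => by rw [h1, h1] at h; omega
  have i2 : Function.Injective (ρ.act γ₂) := fun a b h => by
    rw [h2, h2] at h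
    by_cases ha : P a <;> by_cases hb : P b <;> simp only [ha, hb, if_true, if_false] at h <;>
        omega
  have h3 : L γ₁ (R t p) = L γ₂ (R t p) := by
    apply hinj
    intro v
    have hv : P (r (R t p) v) := ⟨v, (hR t p v).symm⟩
    rw [hL, hL, h1, h2]
    simp only [hv, if_true]
  have h4 : ρ'.act γ₁ (r' t d) = ρ'.act γ₂ (r' t d) := by
    have h5 : r' (L γ₁ (R t p)) d = r' (L γ₂ (R t p)) d := by rw [h3]
    rw [hL', hL', r'_R_fix ρ ρ' hS L R r r' hinj hL hR hL' hR' hA hp hpA] at h5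
    exact h5
  have h5 := ms_act ρ ρ' hS i1 (r' t d)
  rw [h4, ms_act ρ ρ' hS i2] at h5
  have h6 : ρ.act γ₁ x ∈ (ms ρ ρ' hS (r' t d)).image (ρ.act γ₂) := by
    rw [h5]; exact Finset.mem_image_of_mem _ hx
  obtain ⟨y, _, hyx⟩ := Finset.mem_image.1 h6
  rw [h1, h2] at hyx
  by_cases hy : P y
  · simp only [hy, if_true] at hyx
    have : y = x := by omega
    rw [← this]
    exact hy
  · simp only [hy, if_false] at hyx
    omega

include hcl

/-- **Continuity.** -/
theorem continuous_nary (t : T) (d : Fin n → Ω') : ∃ N : ℕ, ∀ s : T,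
    (∀ v : Fin n → ℕ, (∀ j, v j < N) → r s v = r t v) → r' s d = r' t d := by
  classical
  by_contra hcon
  push Not at hcon
  choose s hs hs' using hcon
  -- a common support of the arguments
  obtain ⟨A, hA⟩ : ∃ A : Finset ℕ, ∀ j, Supp ρ ρ' hS A (d j) := by
    refine ⟨Finset.univ.biUnion fun j => ms ρ ρ' hS (d j), fun j => ?_⟩
    exact (ms_supp ρ ρ' hS (d j)).mono ρ ρ' hS (Finset.subset_biUnion_of_mem
      (fun j => ms ρ ρ' hS (d j)) (Finset.mem_univ j))
  obtain ⟨a, ha⟩ : ∃ a, ∀ x ∈ A, x < a :=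
    ⟨A.sup id + 1, fun x hx => Nat.lt_succ_of_le (Finset.le_sup (f := id) hx)⟩
  -- two injections which fix `A` and are otherwise disjoint
  let fF : ℕ → ℕ := fun x => if x ∈ A then x else a + 2 * x
  let fJ : ℕ → ℕ := fun x => if x ∈ A then x else a + 2 * x + 1
  have hfF : Function.Injective fF := by
    intro x y h
    by_cases hx : x ∈ A <;> by_cases hy : y ∈ A
    · simpa [fF, hx, hy] using h
    · simp only [fF, hx, hy, if_true, if_false] at h
      have := ha x hx; omega
    · simp only [fF, hx, hy, if_true, if_false] at h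
      have := ha y hy; omega
    · simp only [fF, hx, hy, if_false] at h
      omega
  have hfJ : Function.Injective fJ := by
    intro x y h
    by_cases hx : x ∈ A <;> by_cases hy : y ∈ A
    · simpa [fJ, hx, hy] using h
    · simp only [fJ, hx, hy, if_true, if_false] at h
      have := ha x hx; omega
    · simp only [fJ, hx, hy, if_true, if_false] at h
      have := ha y hy; omega
    · simp only [fJ, hx, hy, if_false] at h
      omega
  have hFJ : ∀ x y, x ∉ A → fF x ≠ fJ y := by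
    intro x y hx h
    by_cases hy : y ∈ A
    · simp only [fF, fJ, hx, hy, if_true, if_false] at h
      have := ha y hy; omega
    · simp only [fF, fJ, hx, hy, if_false] at h
      omega
  obtain ⟨iF, hiF⟩ := exists_inj ρ hS hfF
  obtain ⟨iJ, hiJ⟩ := exists_inj ρ hS hfJ
  have hiFi : Function.Injective (ρ.act iF) := fun x y h => by
    rw [hiF, hiF] at h; exact hfF h
  have hiJi : Function.Injective (ρ.act iJ) := fun x y h => by
    rw [hiJ, hiJ] at h; exact hfJ h
  have hiFA : ∀ x ∈ A, ρ.act iF x = x := fun x hx => by rw [hiF]; exact if_pos hx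
  have hiJA : ∀ x ∈ A, ρ.act iJ x = x := fun x hx => by rw [hiJ]; exact if_pos hx
  -- homogeneous kernels
  obtain ⟨C, hC, Ker, hKer⟩ := exists_kernel n A
  choose p c hp hpA hpk using fun N : ℕ => hKer (fun v => r (s N) (fun j => fJ (v j)))
  -- the injections `π N`
  have hπ : ∀ N, ∃ π : M, Function.Injective (ρ.act π) ∧ (∀ x, ρ.act π (fJ x) = fJ (p N x)) ∧
      ∀ x, ρ.act π (fF x) = fF x := by
    intro N
    let f : ℕ → ℕ := fun y => if h : ∃ x, fJ x = y then fJ (p N h.choose) else y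
    have hf1 : ∀ x, f (fJ x) = fJ (p N x) := by
      intro x
      have h : ∃ x', fJ x' = fJ x := ⟨x, rfl⟩
      change (if h : ∃ x', fJ x' = fJ x then fJ (p N h.choose) else fJ x) = _
      rw [dif_pos h, hfJ h.choose_spec]
    have hf2 : ∀ y, (¬ ∃ x, fJ x = y) → f y = y := fun y h => dif_neg h
    have hfi : Function.Injective f := by
      intro y z h
      by_cases hy : ∃ x, fJ x = y
      · obtain ⟨x, rfl⟩ := hy
        by_cases hz : ∃ x, fJ x = z
        · obtain ⟨x', rfl⟩ := hz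
          rw [hf1, hf1] at h
          rw [hp N (hfJ h)]
        · rw [hf1, hf2 z hz] at h
          exact absurd ⟨_, h⟩ hz
      · by_cases hz : ∃ x, fJ x = z
        · obtain ⟨x', rfl⟩ := hz
          rw [hf1, hf2 y hy] at h
          exact absurd ⟨_, h.symm⟩ hy
        · rw [hf2 y hy, hf2 z hz] at h
          exact h
    obtain ⟨π, hπ⟩ := exists_inj ρ hS hfi
    refine ⟨π, fun x y h => ?_, fun x => ?_, fun x => ?_⟩
    · rw [hπ, hπ] at h; exact hfi h
    · rw [hπ, hf1]
    · rw [hπ]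
      by_cases hx : x ∈ A
      · have e1 : fF x = x := if_pos hx
        have e2 : fJ x = x := if_pos hx
        rw [e1]
        conv_lhs => rw [← e2]
        rw [hf1, hpA N x hx, e2]
      · exact hf2 _ (fun ⟨y, hy⟩ => hFJ x y hx hy.symm)
  choose π hπi hπJ hπF using hπ
  have hπA : ∀ N, ∀ x ∈ A, ρ.act (π N) x = x := by
    intro N x hx
    have e1 : fF x = x := if_pos hx
    have := hπF N x
    rwa [e1] at this
  let G : ℕ → T := fun N => R (s N) (π N)
  have hGJ : ∀ N (v : Fin n → ℕ), r (G N) (fun j => fJ (v j)) =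
      r (s N) (fun j => fJ (p N (v j))) := by
    intro N v
    change r (R (s N) (π N)) _ = _
    rw [hR]
    congr 1
    funext j
    exact hπJ N _
  have hGF : ∀ (v : Fin n → ℕ), ∀ᶠ N in atTop, r (G N) (fun j => fF (v j)) =
      r t (fun j => fF (v j)) := by
    intro v
    filter_upwards [eventually_gt_atTop (Finset.univ.sup fun j => fF (v j))] with N hN
    change r (R (s N) (π N)) _ = _
    rw [hR]
    have : (fun j => ρ.act (π N) (fF (v j))) = fun j => fF (v j) := by
      funext j; exact hπF N _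
    rw [this]
    refine hs N _ fun j => lt_of_le_of_lt ?_ hN
    exact Finset.le_sup (f := fun j => fF (v j)) (Finset.mem_univ j)
  have hGk : ∀ N (v w : Fin n → ℕ), r (G N) (fun j => fJ (v j)) = r (G N) (fun j => fJ (w j)) ↔
      Ker (c N) v w := by
    intro N v w
    rw [hGJ, hGJ]
    exact hpk N v w
  -- the ultrafilter
  let U : Ultrafilter ℕ := hyperfilter ℕ
  have hU : (U : Filter ℕ) ≤ atTop := by
    have h1 : (U : Filter ℕ) ≤ cofinite := hyperfilter_le_cofinite
    rwa [Nat.cofinite_eq_atTop] at h1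
  obtain ⟨c₀, hc₀⟩ : ∃ c₀, ∀ᶠ N in (U : Filter ℕ), c N = c₀ := by
    have h1 : (⋃ c₀ ∈ (Set.univ : Set C), {N | c N = c₀}) ∈ U := by
      refine Filter.mem_of_superset (Filter.univ_mem (f := (U : Filter ℕ))) ?_
      intro N _
      exact Set.mem_iUnion₂.2 ⟨c N, trivial, rfl⟩
    rw [Ultrafilter.finite_biUnion_mem_iff Set.finite_univ] at h1
    obtain ⟨c₀, _, h⟩ := h1
    exact ⟨c₀, h⟩
  -- the limit kernel
  let E : Setoid (Fin n → ℕ) :=
    { r := fun v w => ∀ᶠ N in (U : Filter ℕ), r (G N) v = r (G N) w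
      iseqv := ⟨fun v => Eventually.of_forall fun N => rfl,
        fun h => h.mono fun N hN => hN.symm,
        fun h h' => (h.and h').mono fun N hN => hN.1.trans hN.2⟩ }
  have hE : ∀ v w, E.r v w ↔ ∀ᶠ N in (U : Filter ℕ), r (G N) v = r (G N) w := fun v w => Iff.rfl
  have hE' : ∀ v w, ¬ E.r v w → ∀ᶠ N in (U : Filter ℕ), r (G N) v ≠ r (G N) w := by
    intro v w h
    exact Ultrafilter.eventually_not.2 h
  obtain ⟨q, hq⟩ := exists_injective_nat (Quotient E)
  let h : (Fin n → ℕ) → ℕ := fun v => 2 * q (Quotient.mk E v)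
  have hh : ∀ v w, h v = h w ↔ E.r v w := by
    intro v w
    constructor
    · intro h1
      have h2 : q (Quotient.mk E v) = q (Quotient.mk E w) := by
        change 2 * q (Quotient.mk E v) = 2 * q (Quotient.mk E w) at h1
        omega
      exact Quotient.exact (hq h2)
    · intro h1
      have h2 : Quotient.mk E v = Quotient.mk E w := Quotient.sound h1
      change 2 * q (Quotient.mk E v) = 2 * q (Quotient.mk E w)
      rw [h2]
  -- the limit is in `T`
  obtain ⟨th, hth⟩ : ∃ th : T, ∀ v, r th v = h v := by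
    refine hcl h fun F => ?_
    have h1 : ∀ᶠ N in (U : Filter ℕ), ∀ v ∈ F, ∀ w ∈ F, (r (G N) v = r (G N) w ↔ h v = h w) := by
      rw [eventually_all_finset]
      intro v _
      rw [eventually_all_finset]
      intro w _
      by_cases hvw : E.r v w
      · exact ((hE v w).1 hvw).mono fun N hN => ⟨fun _ => (hh v w).2 hvw, fun _ => hN⟩
      · exact (hE' v w hvw).mono fun N hN => ⟨fun h2 => absurd h2 hN,
          fun h2 => absurd ((hh v w).1 h2) hvw⟩
    obtain ⟨N, hN⟩ := h1.exists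
    let f : ℕ → ℕ := fun y => if hy : ∃ v ∈ F, r (G N) v = y then h hy.choose else 0
    have hf : ∀ v ∈ F, f (r (G N) v) = h v := by
      intro v hv
      have hy : ∃ w ∈ F, r (G N) w = r (G N) v := ⟨v, hv, rfl⟩
      change (if hy : ∃ w ∈ F, r (G N) w = r (G N) v then h hy.choose else 0) = _
      rw [dif_pos hy]
      exact (hN _ hy.choose_spec.1 v hv).1 hy.choose_spec.2
    obtain ⟨κ, hκ⟩ := ext_perm f (F.image (r (G N))) (by
      intro y hy z hz hyz
      obtain ⟨v, hv, rfl⟩ := Finset.mem_image.1 hy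
      obtain ⟨w, hw, rfl⟩ := Finset.mem_image.1 hz
      rw [hf v hv, hf w hw] at hyz
      exact (hN v hv w hw).2 hyz)
    obtain ⟨k, hk⟩ := hS κ
    refine ⟨L k (G N), fun v hv => ?_⟩
    rw [hL, hk, hκ _ (Finset.mem_image_of_mem _ hv), hf v hv]
  -- extension of partial injections
  have hext : ∀ (g : (Fin n → ℕ) → ℕ) (i : (Fin n → ℕ) → (Fin n → ℕ)),
      (∀ v w, g v = g w ↔ h (i v) = h (i w)) → ∃ β : M, Function.Injective (ρ.act β) ∧
        ∀ v, ρ.act β (g v) = h (i v) := by
    intro g i hgi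
    let f : ℕ → ℕ := fun y => if hy : ∃ v, g v = y then h (i hy.choose) else 2 * y + 1
    have hf1 : ∀ v, f (g v) = h (i v) := by
      intro v
      have hy : ∃ w, g w = g v := ⟨v, rfl⟩
      change (if hy : ∃ w, g w = g v then h (i hy.choose) else 2 * g v + 1) = _
      rw [dif_pos hy]
      exact (hgi _ _).1 hy.choose_spec
    have hf2 : ∀ y, (¬ ∃ v, g v = y) → f y = 2 * y + 1 := fun y h => dif_neg h
    have heven : ∀ v, ∃ m, h v = 2 * m := fun v => ⟨_, rfl⟩
    have hfi : Function.Injective f := by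
      intro y z hyz
      by_cases hy : ∃ v, g v = y
      · obtain ⟨v, rfl⟩ := hy
        by_cases hz : ∃ v, g v = z
        · obtain ⟨w, rfl⟩ := hz
          rw [hf1, hf1] at hyz
          exact (hgi _ _).2 hyz
        · rw [hf1, hf2 z hz] at hyz
          obtain ⟨m, hm⟩ := heven (i v)
          omega
      · by_cases hz : ∃ v, g v = z
        · obtain ⟨w, rfl⟩ := hz
          rw [hf1, hf2 y hy] at hyz
          obtain ⟨m, hm⟩ := heven (i w)
          omega
        · rw [hf2 y hy, hf2 z hz] at hyz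
          omega
    obtain ⟨β, hβ⟩ := exists_inj ρ hS hfi
    refine ⟨β, fun x y hxy => ?_, fun v => by rw [hβ, hf1]⟩
    rw [hβ, hβ] at hxy
    exact hfi hxy
  -- comparison with `t`
  have hkF : ∀ v w : Fin n → ℕ, r t (fun j => fF (v j)) = r t (fun j => fF (w j)) ↔
      h (fun j => fF (v j)) = h (fun j => fF (w j)) := by
    intro v w
    rw [hh]
    have h1 : ∀ᶠ N in (U : Filter ℕ), r (G N) (fun j => fF (v j)) = r t (fun j => fF (v j)) :=
      hU (hGF v)
    have h2 : ∀ᶠ N in (U : Filter ℕ), r (G N) (fun j => fF (w j)) = r t (fun j => fF (w j)) :=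
      hU (hGF w)
    constructor
    · intro h3
      refine ((hE _ _).2 ?_)
      filter_upwards [h1, h2] with N e1 e2
      rw [e1, e2, h3]
    · intro h3
      obtain ⟨N, ⟨e1, e2⟩, e3⟩ := ((h1.and h2).and ((hE _ _).1 h3)).exists
      rw [← e1, ← e2, e3]
  obtain ⟨β, hβi, hβ⟩ := hext (fun v => r t (fun j => fF (v j))) (fun v j => fF (v j)) hkF
  have hthd : ρ'.act β (r' t d) = r' th d := by
    have e1 : L β (R t iF) = R th iF := by
      apply hinj
      intro v
      rw [hL, hR, hR, hth]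
      have e2 : (fun j => ρ.act iF (v j)) = fun j => fF (v j) := by funext j; exact hiF _
      rw [e2]
      exact hβ v
    have e2 : r' (L β (R t iF)) d = r' (R th iF) d := by rw [e1]
    rw [hL', r'_R_fix ρ ρ' hS L R r r' hinj hL hR hL' hR' hA hiFi hiFA,
      r'_R_fix ρ ρ' hS L R r r' hinj hL hR hL' hR' hA hiFi hiFA] at e2
    exact e2
  -- comparison with `s N`
  have hkJ : ∀ N, c N = c₀ → ∀ v w : Fin n → ℕ,
      r (G N) (fun j => fJ (v j)) = r (G N) (fun j => fJ (w j)) ↔
      h (fun j => fJ (v j)) = h (fun j => fJ (w j)) := by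
    intro N hN v w
    rw [hh, hGk, hN]
    constructor
    · intro h3
      refine (hE _ _).2 ?_
      filter_upwards [hc₀] with N' hN'
      rw [hGk, hN']
      exact h3
    · intro h3
      obtain ⟨N', e1, e2⟩ := (hc₀.and ((hE _ _).1 h3)).exists
      rw [hGk, e1] at e2
      exact e2
  have hstep : ∀ N, c N = c₀ → ∃ γ : M, Function.Injective (ρ.act γ) ∧
      (∀ v : Fin n → ℕ, ρ.act γ (r (G N) (fun j => fJ (v j))) = h (fun j => fJ (v j))) ∧
      ρ'.act γ (r' (s N) d) = r' th d := by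
    intro N hN
    obtain ⟨γ, hγi, hγ⟩ := hext (fun v => r (G N) (fun j => fJ (v j))) (fun v j => fJ (v j))
      (hkJ N hN)
    refine ⟨γ, hγi, hγ, ?_⟩
    have e1 : L γ (R (G N) iJ) = R th iJ := by
      apply hinj
      intro v
      rw [hL, hR (G N) iJ v, hR th iJ v, hth]
      have e2 : (fun j => ρ.act iJ (v j)) = fun j => fJ (v j) := by funext j; exact hiJ _
      rw [e2]
      exact hγ v
    have e2 : r' (L γ (R (G N) iJ)) d = r' (R th iJ) d := by rw [e1]
    rw [hL', r'_R_fix ρ ρ' hS L R r r' hinj hL hR hL' hR' hA hiJi hiJA,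
      r'_R_fix ρ ρ' hS L R r r' hinj hL hR hL' hR' hA hiJi hiJA] at e2
    have e3 : r' (G N) d = r' (s N) d :=
      r'_R_fix ρ ρ' hS L R r r' hinj hL hR hL' hR' hA (hπi N) (hπA N) (s N)
    rw [e3] at e2
    exact e2
  -- the points of the smallest support of `r' t d`
  have hxF : ∀ x ∈ ms ρ ρ' hS (r' t d), ∃ u : Fin n → ℕ, r t (fun j => fF (u j)) = x := by
    intro x hx
    obtain ⟨u, hu⟩ := ms_range ρ ρ' hS L R r r' hinj hL hR hL' hR' hA hiFi hiFA t x hx
    refine ⟨u, ?_⟩
    have e2 : (fun j => ρ.act iF (u j)) = fun j => fF (u j) := by funext j; exact hiF _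
    rw [← e2]
    exact hu
  obtain ⟨N₀, hN₀⟩ := hc₀.exists
  obtain ⟨γ₀, hγ₀i, hγ₀, hγ₀d⟩ := hstep N₀ hN₀
  have hxJ : ∀ x ∈ ms ρ ρ' hS (r' t d), ∃ v : Fin n → ℕ, h (fun j => fJ (v j)) = ρ.act β x := by
    intro x hx
    have e1 : ρ.act β x ∈ ms ρ ρ' hS (r' th d) := by
      rw [← hthd, ms_act ρ ρ' hS hβi]
      exact Finset.mem_image_of_mem _ hx
    rw [← hγ₀d, ms_act ρ ρ' hS hγ₀i] at e1
    obtain ⟨z, hz, hzx⟩ := Finset.mem_image.1 e1
    have hcomp : Function.Injective (ρ.act (π N₀ * iJ)) := by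
      intro x y hxy
      rw [ρ.mul, ρ.mul] at hxy
      exact hiJi (hπi N₀ hxy)
    have hcompA : ∀ x ∈ A, ρ.act (π N₀ * iJ) x = x := by
      intro x hx
      rw [ρ.mul, hiJA x hx, hπA N₀ x hx]
    obtain ⟨v, hv⟩ := ms_range ρ ρ' hS L R r r' hinj hL hR hL' hR' hA hcomp hcompA (s N₀) z hz
    refine ⟨v, ?_⟩
    rw [← hzx, ← hγ₀ v, ← hv, hGJ]
    congr 2
    funext j
    rw [ρ.mul, hiJ, hπJ]
  -- for many `N` the maps `β` and `γ` agree on the smallest support
  have hfinal : ∀ᶠ N in (U : Filter ℕ), ∀ x ∈ ms ρ ρ' hS (r' t d), ∃ v : Fin n → ℕ,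
      h (fun j => fJ (v j)) = ρ.act β x ∧ r (G N) (fun j => fJ (v j)) = x := by
    rw [eventually_all_finset]
    intro x hx
    obtain ⟨u, hu⟩ := hxF x hx
    obtain ⟨v, hv⟩ := hxJ x hx
    have e1 : h (fun j => fF (u j)) = h (fun j => fJ (v j)) := by
      rw [hv, ← hu]
      exact (hβ u).symm
    have e2 := (hE _ _).1 ((hh _ _).1 e1)
    filter_upwards [e2, hU (hGF u)] with N e3 e4
    exact ⟨v, hv, by rw [← e3, e4, hu]⟩
  obtain ⟨N, hN1, hN2⟩ := (hfinal.and hc₀).exists
  obtain ⟨γ, hγi, hγ, hγd⟩ := hstep N hN2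
  have hagree : ∀ x ∈ ms ρ ρ' hS (r' t d), ρ.act γ x = ρ.act β x := by
    intro x hx
    obtain ⟨v, hv1, hv2⟩ := hN1 x hx
    rw [← hv1, ← hγ v, hv2]
  have e1 : ρ'.act γ (r' t d) = ρ'.act β (r' t d) :=
    inj_congr ρ ρ' hS hγi hβi (ms_supp ρ ρ' hS _) hagree
  rw [hthd, ← hγd] at e1
  exact hs' N (inj_inj ρ ρ' hS hγi e1).symm

end

end Q202.Rec
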