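import Pool.Agent.Q202.Rec.CloneRep
import Pool.Agent.Q202.Rec.Nary

/-!
# Closed clones on `ℕ` which contain all permutations have automatic homeomorphicity
-/

set_option autoImplicit false
set_option linter.unusedSectionVars false

namespace Q202.Rec

open Topology Filter

universe u v

theorem oligo_top : Q202.MinTop.Oligo (⊤ : Subgroup (Equiv.Perm ℕ)) := by
  classical
  intro n
  refine ⟨{x | ∀ i, x i ∈ Set.Iic n}, Set.Finite.pi' fun _ => Set.finite_Iic n, fun y => ?_⟩
  have hex : ∀ i : Fin n, ∃ m, ∃ h : m < n, y ⟨m, h⟩ = y i := fun i => ⟨i, i.2, rfl⟩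
  let x : Fin n → ℕ := fun i => Nat.find (hex i)
  have hx : ∀ i, ∃ h : x i < n, y ⟨x i, h⟩ = y i := fun i => Nat.find_spec (hex i)
  have hxx : ∀ i j, y i = y j → x i = x j := by
    intro i j h
    change Nat.find (hex i) = Nat.find (hex j)
    congr 1
    funext m
    rw [h]
  let f : ℕ → ℕ := fun m => if h : m < n then y ⟨m, h⟩ else 0
  have hf : ∀ i, f (x i) = y i := by
    intro i
    obtain ⟨h, h'⟩ := hx i
    change (if h : x i < n then y ⟨x i, h⟩ else 0) = _
    rw [dif_pos h, h']
  obtain ⟨κ, hκ⟩ := ext_perm f (Finset.univ.image x) (by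
    intro a ha b hb hab
    obtain ⟨i, _, rfl⟩ := Finset.mem_image.1 ha
    obtain ⟨j, _, rfl⟩ := Finset.mem_image.1 hb
    rw [hf, hf] at hab
    exact hxx i j hab)
  refine ⟨x, fun i => ?_, κ, trivial, fun i => ?_⟩
  · exact (hx i).1.le
  · rw [hκ _ (Finset.mem_image_of_mem _ (Finset.mem_univ i)), hf]

/-- **Theorem.** Every closed clone on `ℕ` which contains all permutations has automatic
homeomorphicity with respect to the closed clones on countable sets. -/
theorem autoHomeo_of_perm {C : Clone ℕ} (hC : IsClosed C.carrier)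
    (hS : ∀ σ : Equiv.Perm ℕ, (fun v : Fin (0 + 1) → ℕ => σ (v 0)) ∈ C.ops 0)
    (Ω' : Type v) [TopologicalSpace Ω'] [DiscreteTopology Ω'] [Countable Ω'] :
    AutoHomeo C Ω' := by
  classical
  intro D hD ξ
  refine ξ.isHomeomorph_of_continuous hC hD oligo_top (fun g _ => hS g) fun n t d => ?_
  have hS' : ∀ σ : Equiv.Perm ℕ, ∃ p, ∀ x, (C.repn hC).act p x = σ x := fun σ =>
    ⟨⟨_, hS σ⟩, fun x => rfl⟩
  obtain ⟨N, hN⟩ := continuous_nary (C.repn hC) (ξ.repn hD) hS' (C.left n) (C.right n)
    (fun t v => t.1 v) (fun t v => (ξ.map n t).1 v)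
    (fun s t h => Subtype.ext (funext h))
    (fun f hf => by
      have h1 : f ∈ C.ops n := mem_of_isClosed (Clone.isClosed_ops hC n) fun F => by
        obtain ⟨t, ht⟩ := hf F
        exact ⟨t.1, t.2, ht⟩
      exact ⟨⟨f, h1⟩, fun v => rfl⟩)
    (fun p t v => rfl) (fun t p v => rfl)
    (fun p t v => ξ.map_left n p t v) (fun t p v => ξ.map_right n t p v) t d
  refine ⟨Fintype.piFinset fun _ => Finset.range N, fun s hs => hN s fun v hv => hs v ?_⟩
  rw [Fintype.mem_piFinset]
  exact fun i => Finset.mem_range.2 (hv i)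

/-- `Pol` is closed -/
theorem Pol.isClosed (L : FirstOrder.Language.{u, v}) {Ω : Type*} [TopologicalSpace Ω]
    [DiscreteTopology Ω] [L.Structure Ω] : IsClosed (Pol L Ω).carrier := by
  refine Clone.isClosed_carrier fun n => ?_
  have h1 : (Pol L Ω).ops n = ⋂ (m : ℕ) (R : L.Relations m) (r : Fin (n + 1) → Fin m → Ω)
      (_ : ∀ i, FirstOrder.Language.Structure.RelMap R (r i)),
      {f : Op Ω n | FirstOrder.Language.Structure.RelMap R fun j => f fun i => r i j} := by
    ext f
    simp only [Set.mem_iInter]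
    exact Iff.rfl
  rw [h1]
  refine isClosed_iInter fun m => isClosed_iInter fun R => isClosed_iInter fun r =>
    isClosed_iInter fun _ => ?_
  exact (isClosed_discrete {x : Fin m → Ω | FirstOrder.Language.Structure.RelMap R x}).preimage
    (continuous_pi fun j => continuous_apply _)

/-- Permutations preserve the relations which are first-order definable in `(ℕ, =)`. -/
theorem Pol.perm_mem (L : FirstOrder.Language.{u, v}) [L.Structure ℕ]
    (hdef : ∀ (m : ℕ) (R : L.Relations m),
      let _ : FirstOrder.Language.empty.Structure ℕ := FirstOrder.Language.emptyStructure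
      (∅ : Set ℕ).Definable FirstOrder.Language.empty
        {x : Fin m → ℕ | FirstOrder.Language.Structure.RelMap R x})
    (σ : Equiv.Perm ℕ) : (fun v : Fin (0 + 1) → ℕ => σ (v 0)) ∈ (Pol L ℕ).ops 0 := by
  let _ : FirstOrder.Language.empty.Structure ℕ := FirstOrder.Language.emptyStructure
  intro m R r hr
  obtain ⟨φ, hφ⟩ := Set.empty_definable_iff.1 (hdef m R)
  have h1 : ∀ x : Fin m → ℕ, FirstOrder.Language.Structure.RelMap R x ↔ φ.Realize x := by
    intro x
    have : x ∈ {x : Fin m → ℕ | FirstOrder.Language.Structure.RelMap R x} ↔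
        x ∈ Set.ofPred φ.Realize := by rw [hφ]
    exact this
  rw [h1]
  have h2 := FirstOrder.Language.StrongHomClass.realize_formula
    (L := FirstOrder.Language.empty) σ φ (v := r 0)
  exact h2.2 ((h1 _).1 (hr 0))

end Q202.Rec
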