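import Mathlib.MeasureTheory.Constructions.Polish.Basic
import Mathlib.Topology.Baire.BaireMeasurable
import Mathlib.Topology.Baire.Lemmas
import Mathlib.Topology.Baire.CompleteMetrizable
import Mathlib.Topology.Algebra.Group.Basic
import Mathlib.Topology.Algebra.OpenSubgroup
import Mathlib.GroupTheory.Coset.Basic
import Mathlib.Algebra.Group.End

/-!
# Polish groups of permutations

* `isOpen_of_baireMeasurable` (Pettis): a subgroup of countable index with the Baire property is
  open.
* `isOpen_map`: a continuous bijective homomorphism of Polish groups maps open subgroups of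
  countable index to open subgroups.
* `PG a`: the group `G` with the topology of pointwise convergence of a permutation representation
  `a : G →* Perm Ω`.
-/

set_option autoImplicit false
set_option linter.unusedSectionVars false

namespace Q202.Rec

open Topology Filter Set

universe u v w

section Pettis

variable {G : Type u} [Group G] [TopologicalSpace G] [IsTopologicalGroup G]

theorem residual_mul (g : G) {R : Set G} (hR : R ∈ residual G) :
    {x | g * x ∈ R} ∈ residual G :=
  (tendsto_residual_of_isOpenMap (continuous_const_mul g) (isOpenMap_mul_left g)) hR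

/-- A subgroup of countable index with the Baire property is open. -/
theorem isOpen_of_baireMeasurable [BaireSpace G] (H : Subgroup G)
    (hH : BaireMeasurableSet (H : Set G)) [Countable (G ⧸ H)] : IsOpen (H : Set G) := by
  obtain ⟨U, hU, hHU⟩ := hH.residualEq_isOpen
  have hR : {x | x ∈ H ↔ x ∈ U} ∈ residual G := by
    filter_upwards [hHU] with x hx
    exact iff_of_eq hx
  have hne : U.Nonempty := by
    by_contra hcon
    rw [not_nonempty_iff_eq_empty] at hcon
    subst hcon
    have h1 : ∀ q : G ⧸ H, {x | (Quotient.out q)⁻¹ * x ∉ H} ∈ residual G := by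
      intro q
      have h2 : {x : G | x ∉ H} ∈ residual G := by
        filter_upwards [hR] with x hx
        exact fun h => (hx.1 h).elim
      exact residual_mul _ h2
    have h3 : (⋂ q : G ⧸ H, {x | (Quotient.out q)⁻¹ * x ∉ H}) ∈ residual G :=
      countable_iInter_mem.2 h1
    obtain ⟨x, hx⟩ := (dense_of_mem_residual h3).nonempty
    have h4 := mem_iInter.1 hx (QuotientGroup.mk x)
    apply h4
    have h5 : (QuotientGroup.mk (Quotient.out (QuotientGroup.mk x : G ⧸ H)) : G ⧸ H) =
        QuotientGroup.mk x := Quotient.out_eq _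
    exact QuotientGroup.eq.1 h5
  obtain ⟨u, hu⟩ := hne
  refine H.isOpen_of_mem_nhds (g := 1) ?_
  have h1 : {g : G | g * u ∈ U} ∈ 𝓝 (1 : G) := by
    have : Continuous fun g : G => g * u := continuous_mul_const u
    exact (hU.preimage this).mem_nhds (by simpa using hu)
  filter_upwards [h1] with g hg
  have h2 : {x | x ∈ H ↔ x ∈ U} ∩ {x | g * x ∈ H ↔ g * x ∈ U} ∈ residual G :=
    inter_mem hR (residual_mul g hR)
  have hopen : IsOpen (U ∩ {x | g * x ∈ U}) := hU.inter (hU.preimage (continuous_const_mul g))
  obtain ⟨x, hx1, hx2⟩ := (dense_of_mem_residual h2).inter_open_nonempty _ hopen ⟨u, hu, hg⟩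
  have h3 : x ∈ H := hx2.1.2 hx1.1
  have h4 : g * x ∈ H := hx2.2.2 hx1.2
  have h5 := H.mul_mem h4 (H.inv_mem h3)
  rwa [mul_inv_cancel_right] at h5

/-- A closed subgroup of countable index of a Baire group is open. -/
theorem isOpen_of_isClosed [BaireSpace G] (H : Subgroup G) (hH : IsClosed (H : Set G))
    [Countable (G ⧸ H)] : IsOpen (H : Set G) :=
  isOpen_of_baireMeasurable H hH.isOpen_compl.baireMeasurableSet.of_compl

end Pettis

/-- Open mapping theorem for open subgroups of Polish groups. -/
theorem isOpen_map {G₁ : Type u} {G₂ : Type v} [Group G₁] [TopologicalSpace G₁]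
    [IsTopologicalGroup G₁] [PolishSpace G₁] [Group G₂] [TopologicalSpace G₂]
    [IsTopologicalGroup G₂] [PolishSpace G₂] (f : G₂ →* G₁) (hf : Continuous f)
    (hb : Function.Bijective f) (H : Subgroup G₂) (hH : IsOpen (H : Set G₂))
    [Countable (G₂ ⧸ H)] : IsOpen ((H.map f : Subgroup G₁) : Set G₁) := by
  borelize G₁
  borelize G₂
  have h1 : MeasurableSet (f '' (H : Set G₂)) :=
    hH.measurableSet.image_of_continuousOn_injOn hf.continuousOn hb.injective.injOn
  have h2 : ((H.map f : Subgroup G₁) : Set G₁) = f '' (H : Set G₂) := rfl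
  have : Countable (G₁ ⧸ (H.map f : Subgroup G₁)) := by
    have hs : Function.Surjective (fun q : G₂ ⧸ H =>
        (QuotientGroup.mk (f (Quotient.out q)) : G₁ ⧸ (H.map f : Subgroup G₁))) := by
      intro q
      obtain ⟨x, rfl⟩ := QuotientGroup.mk_surjective q
      obtain ⟨y, rfl⟩ := hb.surjective x
      refine ⟨QuotientGroup.mk y, ?_⟩
      have h5 : (QuotientGroup.mk (Quotient.out (QuotientGroup.mk y : G₂ ⧸ H)) : G₂ ⧸ H) =
          QuotientGroup.mk y := Quotient.out_eq _
      refine QuotientGroup.eq.2 ?_
      rw [← map_inv, ← map_mul]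
      exact ⟨_, QuotientGroup.eq.1 h5, rfl⟩
    exact hs.countable
  refine isOpen_of_baireMeasurable _ ?_
  rw [h2]
  exact h1.baireMeasurableSet

/-! ### Permutation representations -/

/-- The group `G` with the topology of the permutation representation `a`. -/
def PG {G : Type u} {Ω : Type v} [Group G] (_a : G →* Equiv.Perm Ω) : Type u := G

section PG

variable {G : Type u} {Ω : Type v} [Group G] [TopologicalSpace Ω] [DiscreteTopology Ω]
  (a : G →* Equiv.Perm Ω)

instance : Group (PG a) := inferInstanceAs (Group G)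

/-- the action -/
def act : PG a →* Equiv.Perm Ω := a

/-- the action of an element and of its inverse -/
def em (g : PG a) : (Ω → Ω) × (Ω → Ω) := (⇑(act a g), ⇑(act a g⁻¹))

instance : TopologicalSpace (PG a) := TopologicalSpace.induced (em a) inferInstance

omit [DiscreteTopology Ω] in
theorem isInducing_em : IsInducing (em a) := ⟨rfl⟩

theorem continuous_act (x : Ω) : Continuous fun g : PG a => act a g x :=
  (continuous_apply x).comp (continuous_fst.comp (isInducing_em a).continuous)

theorem continuous_act_inv (x : Ω) : Continuous fun g : PG a => act a g⁻¹ x :=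
  (continuous_apply x).comp (continuous_snd.comp (isInducing_em a).continuous)

theorem continuous_ev : Continuous fun p : (Ω → Ω) × Ω => p.1 p.2 :=
  continuous_prod_of_discrete_right.2 fun y => continuous_apply y

instance : IsTopologicalGroup (PG a) where
  continuous_mul := by
    rw [(isInducing_em a).continuous_iff]
    refine Continuous.prodMk ?_ ?_
    · refine continuous_pi fun x => ?_
      have h1 : Continuous fun p : PG a × PG a => ((⇑(act a p.1) : Ω → Ω), act a p.2 x) :=
        (continuous_fst.comp ((isInducing_em a).continuous.comp continuous_fst)).prodMk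
          ((continuous_act a x).comp continuous_snd)
      refine ((continuous_ev (Ω := Ω)).comp h1).congr fun p => ?_
      change act a p.1 (act a p.2 x) = act a (p.1 * p.2) x
      rw [map_mul]
      rfl
    · refine continuous_pi fun x => ?_
      have h1 : Continuous fun p : PG a × PG a =>
          ((⇑(act a p.2⁻¹) : Ω → Ω), act a p.1⁻¹ x) :=
        (continuous_snd.comp ((isInducing_em a).continuous.comp continuous_snd)).prodMk
          ((continuous_act_inv a x).comp continuous_fst)
      refine ((continuous_ev (Ω := Ω)).comp h1).congr fun p => ?_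
      change act a p.2⁻¹ (act a p.1⁻¹ x) = act a (p.1 * p.2)⁻¹ x
      rw [mul_inv_rev, map_mul]
      rfl
  continuous_inv := by
    rw [(isInducing_em a).continuous_iff]
    refine ((continuous_snd.comp (isInducing_em a).continuous).prodMk
      (continuous_fst.comp (isInducing_em a).continuous)).congr fun g => ?_
    change (⇑(act a g⁻¹), ⇑(act a g)) = (⇑(act a g⁻¹), ⇑(act a (g⁻¹)⁻¹))
    rw [inv_inv]

/-- neighbourhoods of the identity -/
theorem mem_nhds_one_PG (U : Set (PG a)) : U ∈ 𝓝 (1 : PG a) ↔
    ∃ F : Finset Ω, ∀ g : PG a, (∀ x ∈ F, act a g x = x) → g ∈ U := by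
  constructor
  · intro hU
    rw [(isInducing_em a).nhds_eq_comap, mem_comap] at hU
    obtain ⟨V, hV, hVU⟩ := hU
    have e1 : em a 1 = (id, id) := by
      change (⇑(act a 1), ⇑(act a 1⁻¹)) = (id, id)
      rw [inv_one, map_one]
      rfl
    rw [e1, mem_nhds_prod_iff] at hV
    obtain ⟨A, hA, B, hB, hAB⟩ := hV
    have key : ∀ A ∈ 𝓝 (id : Ω → Ω), ∃ F : Finset Ω, ∀ f : Ω → Ω, (∀ x ∈ F, f x = x) → f ∈ A := by
      intro A hA
      rw [nhds_pi, Filter.mem_pi] at hA
      obtain ⟨I, hI, V, hV, hVA⟩ := hA
      refine ⟨hI.toFinset, fun f hf => hVA fun x hx => ?_⟩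
      rw [hf x (by simpa using hx)]
      exact mem_of_mem_nhds (hV x)
    obtain ⟨F₁, h1⟩ := key A hA
    obtain ⟨F₂, h2⟩ := key B hB
    classical
    refine ⟨F₁ ∪ F₂, fun g hg => hVU (hAB ⟨h1 _ fun x hx => hg x (Finset.mem_union_left _ hx),
      h2 _ fun x hx => ?_⟩)⟩
    have h3 := hg x (Finset.mem_union_right _ hx)
    change act a g⁻¹ x = x
    rw [map_inv, Equiv.Perm.inv_eq_iff_eq, h3]
  · rintro ⟨F, hF⟩
    have h1 : ∀ x ∈ F, {g : PG a | act a g x = x} ∈ 𝓝 (1 : PG a) := by
      intro x _
      have h2 := (continuous_act a x).tendsto (1 : PG a)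
      have h3 : act a 1 x = x := by rw [map_one]; rfl
      rw [h3] at h2
      exact h2 (by simp : ({x} : Set Ω) ∈ 𝓝 x)
    have h2 : (⋂ x ∈ F, {g : PG a | act a g x = x}) ∈ 𝓝 (1 : PG a) :=
      (Filter.biInter_finset_mem F).2 h1
    refine mem_of_superset h2 fun g hg => hF g fun x hx => ?_
    exact mem_iInter₂.1 hg x hx

/-- stabilizers of points -/
def stab (x : Ω) : Subgroup (PG a) where
  carrier := {g | act a g x = x}
  mul_mem' := by
    intro g h hg hh
    rw [Set.mem_ofPred_eq] at *
    rw [map_mul, Equiv.Perm.mul_apply, hh, hg]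
  one_mem' := by
    rw [Set.mem_ofPred_eq, map_one]
    rfl
  inv_mem' := by
    intro g hg
    rw [Set.mem_ofPred_eq] at *
    rw [map_inv, Equiv.Perm.inv_eq_iff_eq, hg]

omit [TopologicalSpace Ω] [DiscreteTopology Ω] in
theorem mem_stab {x : Ω} {g : PG a} : g ∈ stab a x ↔ act a g x = x := Iff.rfl

theorem isOpen_stab (x : Ω) : IsOpen ((stab a x : Subgroup (PG a)) : Set (PG a)) := by
  refine (stab a x).isOpen_of_mem_nhds (g := 1) ?_
  rw [mem_nhds_one_PG]
  exact ⟨{x}, fun g hg => hg x (Finset.mem_singleton_self x)⟩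

omit [TopologicalSpace Ω] [DiscreteTopology Ω] in
theorem stab_rel {x : Ω} {g h : PG a} : g⁻¹ * h ∈ stab a x ↔ act a h x = act a g x := by
  rw [mem_stab, map_mul, map_inv, Equiv.Perm.mul_apply, Equiv.Perm.inv_eq_iff_eq]

omit [TopologicalSpace Ω] [DiscreteTopology Ω] in
theorem countable_quot_stab [Countable Ω] (x : Ω) : Countable (PG a ⧸ stab a x) := by
  have hinj : Function.Injective (Quotient.lift (s := QuotientGroup.leftRel (stab a x))
      (fun g : PG a => act a g x) (by
        intro g h hgh
        exact ((stab_rel a).1 (QuotientGroup.leftRel_apply.1 hgh)).symm)) := by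
    intro p q
    refine Quotient.inductionOn₂ p q fun g h hgh => ?_
    refine Quotient.sound (QuotientGroup.leftRel_apply.2 ((stab_rel a).2 ?_))
    exact (show act a g x = act a h x from hgh).symm
  exact hinj.countable

/-- The topology of a faithful permutation representation with closed image is Polish. -/
theorem polishSpace_PG [Countable Ω] (ha : Function.Injective a)
    (hcl : ∀ f g : Ω → Ω, (∀ F : Finset Ω, ∃ h, ∀ x ∈ F, a h x = f x ∧ a h⁻¹ x = g x) →
      ∃ h, ⇑(a h) = f ∧ ⇑(a h⁻¹) = g) : PolishSpace (PG a) := by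
  have hinj : Function.Injective (em a) := by
    intro g h hgh
    have h1 : (⇑(a g) : Ω → Ω) = ⇑(a h) := congrArg Prod.fst hgh
    exact ha (Equiv.coe_fn_injective h1)
  have hclosed : IsClosed (range (em a)) := by
    refine isClosed_of_closure_subset fun p hp => ?_
    obtain ⟨f, g⟩ := p
    obtain ⟨h, h1, h2⟩ := hcl f g (by
      intro F
      let V : Set ((Ω → Ω) × (Ω → Ω)) := {q | ∀ x ∈ F, q.1 x = f x ∧ q.2 x = g x}
      have hV : V ∈ 𝓝 (f, g) := by
        have e : V = ⋂ x ∈ F, ({q : (Ω → Ω) × (Ω → Ω) | q.1 x = f x} ∩ {q | q.2 x = g x}) := by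
          ext q; simp [V]
        rw [e, Filter.biInter_finset_mem]
        intro x _
        refine inter_mem ?_ ?_
        · have h1 : Tendsto (fun q : (Ω → Ω) × (Ω → Ω) => q.1 x) (𝓝 (f, g)) (𝓝 (f x)) :=
            ((continuous_apply x).comp continuous_fst).tendsto _
          exact h1 (by simp : ({f x} : Set Ω) ∈ 𝓝 (f x))
        · have h1 : Tendsto (fun q : (Ω → Ω) × (Ω → Ω) => q.2 x) (𝓝 (f, g)) (𝓝 (g x)) :=
            ((continuous_apply x).comp continuous_snd).tendsto _
          exact h1 (by simp : ({g x} : Set Ω) ∈ 𝓝 (g x))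
      obtain ⟨q, hq, ⟨h, rfl⟩⟩ := mem_closure_iff_nhds.1 hp V hV
      exact ⟨h, hq⟩)
    exact ⟨h, Prod.ext h1 h2⟩
  have : PolishSpace ((Ω → Ω) × (Ω → Ω)) := ⟨⟩
  exact (IsClosedEmbedding.mk ⟨isInducing_em a, hinj⟩ hclosed).polishSpace

end PG

/-- Let `a`, `b` be faithful representations of `G` by permutations of countable sets with closed
images. If every point stabilizer of `a` contains an open subgroup for the topology of `b`, then
every point stabilizer of `b` contains the pointwise stabilizer (for `a`) of a finite set. -/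
theorem exists_support {G : Type u} {Ω : Type v} {Ω' : Type w} [Group G]
    [TopologicalSpace Ω] [DiscreteTopology Ω] [Countable Ω]
    [TopologicalSpace Ω'] [DiscreteTopology Ω'] [Countable Ω']
    (a : G →* Equiv.Perm Ω) (b : G →* Equiv.Perm Ω') (ha : PolishSpace (PG a))
    (hb : PolishSpace (PG b))
    (h : ∀ x : Ω, {g : PG b | act a g x = x} ∈ 𝓝 (1 : PG b)) (d : Ω') :
    ∃ F : Finset Ω, ∀ g : G, (∀ x ∈ F, a g x = x) → b g d = d := by
  let f : PG b →* PG a := MonoidHom.id G
  have hf : Continuous f := by
    refine continuous_of_continuousAt_one f ?_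
    rw [ContinuousAt, map_one]
    intro U hU
    rw [mem_nhds_one_PG] at hU
    obtain ⟨F, hF⟩ := hU
    have h1 : (⋂ x ∈ F, {g : PG b | act a g x = x}) ∈ 𝓝 (1 : PG b) :=
      (Filter.biInter_finset_mem F).2 fun x _ => h x
    refine mem_of_superset h1 fun g hg => ?_
    exact hF g fun x hx => mem_iInter₂.1 hg x hx
  have hbij : Function.Bijective f := Function.bijective_id
  have := countable_quot_stab b d
  have h2 := isOpen_map f hf hbij (stab b d) (isOpen_stab b d)
  have h3 : (((stab b d).map f : Subgroup (PG a)) : Set (PG a)) ∈ 𝓝 (1 : PG a) :=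
    h2.mem_nhds (Subgroup.one_mem _)
  rw [mem_nhds_one_PG] at h3
  obtain ⟨F, hF⟩ := h3
  refine ⟨F, fun g hg => ?_⟩
  obtain ⟨g', hg', hgg'⟩ := hF g hg
  have : g' = g := hgg'
  rw [← this]
  exact hg'

end Q202.Rec
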