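import Pool.Agent.Q202.Rec.Repn
import Mathlib.GroupTheory.Subgroup.Centralizer

/-!
# Monoids of transformations of `ℕ` which contain all permutations: supports and injections
-/

set_option autoImplicit false
set_option linter.unusedSectionVars false

namespace Q202.Rec

open Topology Filter

universe u v w

/-- a finite partial injection extends to a permutation -/
theorem ext_perm {Ω : Type v} [DecidableEq Ω] (f : Ω → Ω) (S : Finset Ω) :
    (∀ x ∈ S, ∀ y ∈ S, f x = f y → x = y) → ∃ σ : Equiv.Perm Ω, ∀ x ∈ S, σ x = f x := by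
  induction S using Finset.induction_on with
  | empty => intro _; exact ⟨1, fun x hx => absurd hx (Finset.notMem_empty x)⟩
  | insert a S ha ih =>
    intro h
    obtain ⟨σ, hσ⟩ := ih fun x hx y hy => h x (Finset.mem_insert_of_mem hx) y
      (Finset.mem_insert_of_mem hy)
    refine ⟨Equiv.swap (σ a) (f a) * σ, fun x hx => ?_⟩
    rw [Equiv.Perm.mul_apply]
    rcases Finset.mem_insert.1 hx with rfl | hx
    · exact Equiv.swap_apply_left _ _
    · rw [hσ x hx]
      refine Equiv.swap_apply_of_ne_of_ne ?_ ?_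
      · intro h1
        rw [← hσ x hx] at h1
        exact ha (σ.injective h1 ▸ hx)
      · intro h1
        exact ha (h x (Finset.mem_insert_of_mem hx) a (Finset.mem_insert_self a S) h1 ▸ hx)

/-- an injective map which fixes `F` and maps all other points outside of `W` -/
theorem escape (F W : Finset ℕ) : ∃ f : ℕ → ℕ, Function.Injective f ∧ (∀ x ∈ F, f x = x) ∧
    ∀ x, x ∉ F → f x ∉ W ∧ f x ∉ F := by
  obtain ⟨N, hN⟩ : ∃ N, ∀ x ∈ F ∪ W, x < N :=
    ⟨(F ∪ W).sup id + 1, fun x hx => Nat.lt_succ_of_le (Finset.le_sup (f := id) hx)⟩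
  refine ⟨fun x => if x ∈ F then x else N + x, ?_, fun x hx => by simp [hx], fun x hx => ?_⟩
  · intro x y hxy
    by_cases hx : x ∈ F
    · by_cases hy : y ∈ F
      · simpa [hx, hy] using hxy
      · simp only [hx, hy, if_true, if_false] at hxy
        have := hN x (Finset.mem_union_left _ hx)
        omega
    · by_cases hy : y ∈ F
      · simp only [hx, hy, if_true, if_false] at hxy
        have := hN y (Finset.mem_union_left _ hy)
        omega
      · simp only [hx, hy, if_false] at hxy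
        omega
  · simp only [hx, if_false]
    constructor
    · intro h
      have := hN _ (Finset.mem_union_right _ h)
      omega
    · intro h
      have := hN _ (Finset.mem_union_left _ h)
      omega

section

variable {M : Type u} [Monoid M] {Ω' : Type v} (ρ : Repn M ℕ) (ρ' : Repn M Ω')
  (hS : ∀ σ : Equiv.Perm ℕ, ∃ p, ∀ x, ρ.act p x = σ x)

include hS

/-- the unit which acts as `σ` -/
theorem exists_unit (σ : Equiv.Perm ℕ) : ∃ u : Mˣ, ∀ x, ρ.act u x = σ x := by
  obtain ⟨p, hp⟩ := hS σ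
  obtain ⟨q, hq⟩ := hS σ⁻¹
  refine ⟨⟨p, q, ρ.inj _ _ fun x => ?_, ρ.inj _ _ fun x => ?_⟩, hp⟩
  · rw [ρ.mul, ρ.one, hp, hq]; exact σ.apply_symm_apply x
  · rw [ρ.mul, ρ.one, hp, hq]; exact σ.symm_apply_apply x

/-- the unit which acts as `σ` -/
noncomputable def th (σ : Equiv.Perm ℕ) : Mˣ := (exists_unit ρ hS σ).choose

theorem th_act (σ : Equiv.Perm ℕ) (x : ℕ) : ρ.act (th ρ hS σ) x = σ x :=
  (exists_unit ρ hS σ).choose_spec x

theorem th_mul (σ τ : Equiv.Perm ℕ) : th ρ hS (σ * τ) = th ρ hS σ * th ρ hS τ := by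
  apply Units.ext
  apply ρ.inj
  intro x
  rw [Units.val_mul, ρ.mul, th_act, th_act, th_act]
  rfl

theorem th_inv (σ : Equiv.Perm ℕ) : th ρ hS σ⁻¹ = (th ρ hS σ)⁻¹ := by
  rw [eq_inv_iff_mul_eq_one, ← th_mul, inv_mul_cancel]
  apply Units.ext
  apply ρ.inj
  intro x
  rw [th_act, Units.val_one, ρ.one]
  rfl

/-- the action of the permutations of `ℕ` on `Ω'` -/
noncomputable def al (σ : Equiv.Perm ℕ) (d : Ω') : Ω' := ρ'.act (th ρ hS σ) d

theorem al_mul (σ τ : Equiv.Perm ℕ) (d : Ω') :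
    al ρ ρ' hS (σ * τ) d = al ρ ρ' hS σ (al ρ ρ' hS τ d) := by
  unfold al
  rw [th_mul, Units.val_mul, ρ'.mul]

theorem al_one (d : Ω') : al ρ ρ' hS 1 d = d := by
  unfold al
  have h : th ρ hS 1 = 1 := by
    apply Units.ext
    apply ρ.inj
    intro x
    rw [th_act, Units.val_one, ρ.one]; rfl
  rw [h, Units.val_one, ρ'.one]

theorem al_inj (σ : Equiv.Perm ℕ) : Function.Injective (al ρ ρ' hS σ) := by
  intro d e h
  have := congrArg (al ρ ρ' hS σ⁻¹) h
  rw [← al_mul, ← al_mul, inv_mul_cancel, al_one, al_one] at this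
  exact this

/-- the finite set `F` supports `d` -/
def Supp (F : Finset ℕ) (d : Ω') : Prop :=
  ∀ σ : Equiv.Perm ℕ, (∀ x ∈ F, σ x = x) → al ρ ρ' hS σ d = d

/-- Every point has a finite support. -/
theorem exists_supp [TopologicalSpace Ω'] [DiscreteTopology Ω'] [Countable Ω'] (d : Ω') :
    ∃ F, Supp ρ ρ' hS F d := by
  have h1 := ρ.polish
  have h2 := ρ'.polish
  -- the identity map
  let I : PG ρ'.perm →* Mˣ := MonoidHom.id Mˣ
  have hI : Function.Injective I := fun _ _ h => h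
  let t : ℕ → ℕ → PG ρ'.perm := fun x y => th ρ hS (Equiv.swap x y)
  have hIt : ∀ x y, I (t x y) = th ρ hS (Equiv.swap x y) := fun _ _ => rfl
  have key : ∀ x y : ℕ, IsOpen {g : PG ρ'.perm | t x y * g = g * t x y} := by
    intro x y
    let H : Subgroup (PG ρ'.perm) := Subgroup.centralizer {t x y}
    have hH : ∀ g : PG ρ'.perm, g ∈ H ↔ t x y * g = g * t x y := fun g =>
      Subgroup.mem_centralizer_singleton_iff.trans eq_comm
    have hcl : IsClosed (H : Set (PG ρ'.perm)) := by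
      have e : (H : Set (PG ρ'.perm)) = {g | t x y * g = g * t x y} := Set.ext hH
      rw [e]
      exact isClosed_eq (continuous_const.mul continuous_id) (continuous_id.mul continuous_const)
    have hcount : Countable (PG ρ'.perm ⧸ H) := by
      have hinj : Function.Injective (fun q : PG ρ'.perm ⧸ H =>
          (ρ.act (I (Quotient.out q) : M) x, ρ.act (I (Quotient.out q) : M) y)) := by
        intro p q hpq
        rw [Prod.mk.injEq] at hpq
        rw [← Quotient.out_eq p, ← Quotient.out_eq q]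
        generalize Quotient.out p = g at hpq ⊢
        generalize Quotient.out q = h at hpq ⊢
        refine QuotientGroup.eq.2 ((hH _).2 (hI ?_))
        simp only [map_mul, map_inv, hIt]
        generalize I g = g at hpq ⊢
        generalize I h = h at hpq ⊢
        have e1 : ρ.act ((g⁻¹ * h : Mˣ) : M) x = x := by
          rw [Units.val_mul, ρ.mul, ← hpq.1, ← ρ.mul, Units.inv_mul, ρ.one]
        have e2 : ρ.act ((g⁻¹ * h : Mˣ) : M) y = y := by
          rw [Units.val_mul, ρ.mul, ← hpq.2, ← ρ.mul, Units.inv_mul, ρ.one]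
        generalize (g⁻¹ * h : Mˣ) = k at e1 e2 ⊢
        apply ρ.perm_inj
        rw [map_mul, map_mul]
        have e3 : ρ.perm (th ρ hS (Equiv.swap x y)) = Equiv.swap x y :=
          Equiv.ext fun z => th_act ρ hS _ z
        rw [e3, Equiv.mul_swap_eq_swap_mul]
        have e4 : ρ.perm k x = x := e1
        have e5 : ρ.perm k y = y := e2
        rw [e4, e5]
      exact hinj.countable
    have := isOpen_of_isClosed H hcl
    have e : {g : PG ρ'.perm | t x y * g = g * t x y} = (H : Set (PG ρ'.perm)) :=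
      Set.ext fun g => (hH g).symm
    rw [e]
    exact this
  obtain ⟨F, hF⟩ := exists_support ρ.perm ρ'.perm h1 h2 (fun x => by
    have e1 : ∀ y, (1 : PG ρ'.perm) ∈ {g : PG ρ'.perm | t x y * g = g * t x y} := by
      intro y
      rw [Set.mem_ofPred_eq, mul_one, one_mul]
    filter_upwards [(key x (x + 1)).mem_nhds (e1 _), (key x (x + 2)).mem_nhds (e1 _)] with g h3 h4
    have hg : ∀ y, y ≠ x → t x y * g = g * t x y →
        ρ.act (I g : M) x = x ∨ ρ.act (I g : M) x = y := by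
      intro y hy h5
      have h6 : ρ.act (I (t x y * g) : M) x = ρ.act (I (g * t x y) : M) x := by rw [h5]
      rw [map_mul, map_mul, hIt, Units.val_mul, Units.val_mul, ρ.mul, ρ.mul, th_act, th_act,
        Equiv.swap_apply_left] at h6
      by_contra hcon
      push Not at hcon
      rw [Equiv.swap_apply_of_ne_of_ne hcon.1 hcon.2] at h6
      exact hy ((ρ.perm (I g)).injective h6).symm
    change ρ.act (I g : M) x = x
    rcases hg (x + 1) (by omega) h3 with h5 | h5
    · exact h5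
    · rcases hg (x + 2) (by omega) h4 with h6 | h6
      · exact h6
      · omega) d
  exact ⟨F, fun σ hσ => hF (th ρ hS σ) fun x hx => by
    change ρ.act (th ρ hS σ) x = x
    rw [th_act, hσ x hx]⟩

theorem Supp.mono {F E : Finset ℕ} (h : F ⊆ E) {d : Ω'} (hd : Supp ρ ρ' hS F d) :
    Supp ρ ρ' hS E d := fun σ hσ => hd σ fun x hx => hσ x (h hx)

/-- permutations which agree on a support act in the same way -/
theorem Supp.congr {F : Finset ℕ} {d : Ω'} (hd : Supp ρ ρ' hS F d) {σ τ : Equiv.Perm ℕ}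
    (h : ∀ x ∈ F, σ x = τ x) : al ρ ρ' hS σ d = al ρ ρ' hS τ d := by
  have h1 : al ρ ρ' hS (τ⁻¹ * σ) d = d := hd _ fun x hx => by
    rw [Equiv.Perm.mul_apply, Equiv.Perm.inv_eq_iff_eq, h x hx]
  rw [al_mul] at h1
  have h2 := congrArg (al ρ ρ' hS τ) h1
  rw [← al_mul, mul_inv_cancel, al_one] at h2
  exact h2

theorem Supp.image {F : Finset ℕ} {d : Ω'} (hd : Supp ρ ρ' hS F d) (σ : Equiv.Perm ℕ) :
    Supp ρ ρ' hS (F.image σ) (al ρ ρ' hS σ d) := by
  intro τ hτ
  rw [← al_mul]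
  refine hd.congr ρ ρ' hS fun x hx => ?_
  exact hτ _ (Finset.mem_image_of_mem _ hx)

theorem Supp.inter {F E : Finset ℕ} {d : Ω'} (hF : Supp ρ ρ' hS F d) (hE : Supp ρ ρ' hS E d) :
    Supp ρ ρ' hS (F ∩ E) d := by
  classical
  intro σ hσ
  -- move `E \ F` away
  obtain ⟨f, hf, hf1, hf2⟩ := escape F (F.image σ)
  obtain ⟨g, hg⟩ := ext_perm f (F ∪ E) (fun x _ y _ h => hf h)
  have hE' : Supp ρ ρ' hS (E.image g) d := by
    have h1 := hE.image ρ ρ' hS g
    have h2 : al ρ ρ' hS g d = d := hF g fun x hx => by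
      rw [hg x (Finset.mem_union_left _ hx), hf1 x hx]
    rwa [h2] at h1
  -- a permutation which is `σ` on `F` and the identity on the image of `E`
  have hsep : ∀ x ∈ F, ∀ y ∈ E, y ∉ F → σ x ≠ g y := by
    intro x hx y hy hyF h
    rw [hg y (Finset.mem_union_right _ hy)] at h
    exact (hf2 y hyF).1 (h ▸ Finset.mem_image_of_mem σ hx)
  obtain ⟨h, hh⟩ := ext_perm (fun x => if x ∈ F then σ x else x) (F ∪ E.image g) (by
    have key : ∀ x ∈ F, ∀ y, y ∉ F → y ∈ F ∪ E.image g → σ x ≠ y := by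
      intro x hx y hyF hy h
      rcases Finset.mem_union.1 hy with hy | hy
      · exact hyF hy
      · obtain ⟨e, he, rfl⟩ := Finset.mem_image.1 hy
        refine hsep x hx e he ?_ h
        intro heF
        rw [hg e (Finset.mem_union_left _ heF), hf1 e heF] at hyF
        exact hyF heF
    intro x hx y hy hxy
    by_cases h1 : x ∈ F
    · by_cases h2 : y ∈ F
      · simp only [h1, h2, if_true] at hxy
        exact σ.injective hxy
      · simp only [h1, h2, if_true, if_false] at hxy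
        exact absurd hxy (key x h1 y h2 hy)
    · by_cases h2 : y ∈ F
      · simp only [h1, h2, if_true, if_false] at hxy
        exact absurd hxy.symm (key y h2 x h1 hx)
      · simpa only [h1, h2, if_false] using hxy)
  have e1 : al ρ ρ' hS σ d = al ρ ρ' hS h d := hF.congr ρ ρ' hS fun x hx => by
    rw [hh x (Finset.mem_union_left _ hx)]
    simp only [hx, if_true]
  rw [e1]
  refine hE' h fun y hy => ?_
  rw [hh y (Finset.mem_union_right _ hy)]
  by_cases h2 : y ∈ F
  · simp only [h2, if_true]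
    apply hσ
    obtain ⟨e, he, rfl⟩ := Finset.mem_image.1 hy
    rw [hg e (Finset.mem_union_right _ he)] at h2 ⊢
    by_cases heF : e ∈ F
    · rw [hf1 e heF]
      exact Finset.mem_inter.2 ⟨heF, he⟩
    · exact absurd h2 (hf2 e heF).2
  · simp only [h2, if_false]

/-- There is a smallest support. -/
theorem exists_min_supp [TopologicalSpace Ω'] [DiscreteTopology Ω'] [Countable Ω'] (d : Ω') :
    ∃ F, Supp ρ ρ' hS F d ∧ ∀ E, Supp ρ ρ' hS E d → F ⊆ E := by
  classical
  obtain ⟨F₀, hF₀⟩ := exists_supp ρ ρ' hS d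
  let P : ℕ → Prop := fun n => ∃ F, Supp ρ ρ' hS F d ∧ F.card = n
  have hP : ∃ n, P n := ⟨_, F₀, hF₀, rfl⟩
  obtain ⟨F, hF, hcard⟩ := Nat.find_spec hP
  refine ⟨F, hF, fun E hE => ?_⟩
  have h1 := hF.inter ρ ρ' hS hE
  have h2 : Nat.find hP ≤ (F ∩ E).card := Nat.find_min' hP ⟨_, h1, rfl⟩
  rw [← hcard] at h2
  have h3 := Finset.eq_of_subset_of_card_le Finset.inter_subset_left h2
  exact Finset.inter_eq_left.1 h3

/-- the smallest support -/
noncomputable def ms [TopologicalSpace Ω'] [DiscreteTopology Ω'] [Countable Ω'] (d : Ω') :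
    Finset ℕ := (exists_min_supp ρ ρ' hS d).choose

theorem ms_supp [TopologicalSpace Ω'] [DiscreteTopology Ω'] [Countable Ω'] (d : Ω') :
    Supp ρ ρ' hS (ms ρ ρ' hS d) d := (exists_min_supp ρ ρ' hS d).choose_spec.1

theorem ms_le [TopologicalSpace Ω'] [DiscreteTopology Ω'] [Countable Ω'] {d : Ω'} {E : Finset ℕ}
    (h : Supp ρ ρ' hS E d) : ms ρ ρ' hS d ⊆ E := (exists_min_supp ρ ρ' hS d).choose_spec.2 E h

/-! ### Injections -/

variable [TopologicalSpace Ω'] [DiscreteTopology Ω'] [Countable Ω']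

/-- all injective maps are in the monoid -/
theorem exists_inj {f : ℕ → ℕ} (hf : Function.Injective f) : ∃ p, ∀ x, ρ.act p x = f x := by
  classical
  refine ρ.closed f fun F => ?_
  obtain ⟨σ, hσ⟩ := ext_perm f F fun x _ y _ h => hf h
  obtain ⟨p, hp⟩ := hS σ
  exact ⟨p, fun x hx => by rw [hp, hσ x hx]⟩

/-- the limit of the actions of the permutations which converge to the injection `p` -/
theorem exists_lim (p : M) (hp : Function.Injective (ρ.act p)) :
    ∃ q : M, (∀ (d : Ω') (F : Finset ℕ) (σ : Equiv.Perm ℕ), Supp ρ ρ' hS F d →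
      (∀ x ∈ F, σ x = ρ.act p x) → ρ'.act q d = al ρ ρ' hS σ d) := by
  classical
  choose σ hσ using fun d : Ω' => ext_perm (ρ.act p) (ms ρ ρ' hS d) fun x _ y _ h => hp h
  have key : ∀ (d : Ω') (F : Finset ℕ) (τ : Equiv.Perm ℕ), Supp ρ ρ' hS F d →
      (∀ x ∈ F, τ x = ρ.act p x) → al ρ ρ' hS (σ d) d = al ρ ρ' hS τ d := by
    intro d F τ hF hτ
    refine (ms_supp ρ ρ' hS d).congr ρ ρ' hS fun x hx => ?_
    rw [hσ d x hx, hτ x (ms_le ρ ρ' hS hF hx)]
  obtain ⟨q, hq⟩ := ρ'.closed (fun d => al ρ ρ' hS (σ d) d) (by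
    intro E
    obtain ⟨τ, hτ⟩ := ext_perm (ρ.act p) (E.biUnion (ms ρ ρ' hS)) fun x _ y _ h => hp h
    refine ⟨th ρ hS τ, fun d hd => ?_⟩
    exact (key d _ τ (ms_supp ρ ρ' hS d) fun x hx =>
      hτ x (Finset.mem_biUnion.2 ⟨d, hd, hx⟩)).symm)
  exact ⟨q, fun d F τ hF hτ => by rw [hq]; exact key d F τ hF hτ⟩

theorem lim_comm {p q : M} (hp : Function.Injective (ρ.act p))
    (hq : ∀ (d : Ω') (F : Finset ℕ) (σ : Equiv.Perm ℕ), Supp ρ ρ' hS F d →
      (∀ x ∈ F, σ x = ρ.act p x) → ρ'.act q d = al ρ ρ' hS σ d) (σ τ : Equiv.Perm ℕ)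
    (hst : ∀ x, σ (ρ.act p x) = ρ.act p (τ x)) (x : ℕ) :
    σ (ρ.act q x) = ρ.act q (τ x) := by
  classical
  have h1 : (th ρ hS σ : M) * q = q * th ρ hS τ := by
    apply ρ'.inj
    intro d
    rw [ρ'.mul, ρ'.mul]
    obtain ⟨κ, hκ⟩ := ext_perm (ρ.act p) (ms ρ ρ' hS d) fun x _ y _ h => hp h
    rw [hq d _ κ (ms_supp ρ ρ' hS d) hκ]
    have h2 : ρ'.act q (al ρ ρ' hS τ d) = al ρ ρ' hS (σ * κ * τ⁻¹) (al ρ ρ' hS τ d) := by
      refine hq _ _ _ ((ms_supp ρ ρ' hS d).image ρ ρ' hS τ) fun y hy => ?_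
      obtain ⟨x, hx, rfl⟩ := Finset.mem_image.1 hy
      have e : τ⁻¹ (τ x) = x := τ.symm_apply_apply x
      rw [Equiv.Perm.mul_apply, Equiv.Perm.mul_apply, e, hκ x hx, hst]
    have h3 : ρ'.act q (ρ'.act (th ρ hS τ) d) = ρ'.act q (al ρ ρ' hS τ d) := rfl
    rw [h3, h2, ← al_mul, mul_assoc, inv_mul_cancel, mul_one, al_mul]
    rfl
  have h2 : ρ.act ((th ρ hS σ : M) * q) x = ρ.act (q * th ρ hS τ) x := by rw [h1]
  rw [ρ.mul, ρ.mul, th_act, th_act] at h2
  exact h2

theorem lim_eq_of_coinfinite {p q : M} (hp : Function.Injective (ρ.act p))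
    (hco : (Set.range (ρ.act p))ᶜ.Infinite)
    (hq : ∀ (d : Ω') (F : Finset ℕ) (σ : Equiv.Perm ℕ), Supp ρ ρ' hS F d →
      (∀ x ∈ F, σ x = ρ.act p x) → ρ'.act q d = al ρ ρ' hS σ d) : q = p := by
  classical
  apply ρ.inj
  intro x
  by_contra hne
  by_cases hy : ∃ x', ρ.act p x' = ρ.act q x
  · obtain ⟨x', hx'⟩ := hy
    have hxx : x' ≠ x := by rintro rfl; exact hne hx'.symm
    obtain ⟨z, hz⟩ := Infinite.exists_notMem_finset ({x, x'} : Finset ℕ)
    simp only [Finset.mem_insert, Finset.mem_singleton, not_or] at hz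
    have h1 := lim_comm ρ ρ' hS hp hq (Equiv.swap (ρ.act p x') (ρ.act p z)) (Equiv.swap x' z)
      (fun w => (hp.map_swap x' z w).symm) x
    rw [Equiv.swap_apply_of_ne_of_ne hxx.symm (Ne.symm hz.1), ← hx', Equiv.swap_apply_left] at h1
    exact hz.2 (hp h1)
  · obtain ⟨z, hz, hzy⟩ : ∃ z ∈ (Set.range (ρ.act p))ᶜ, z ≠ ρ.act q x := by
      obtain ⟨z, hz, hz'⟩ := hco.exists_notMem_finset {ρ.act q x}
      exact ⟨z, hz, fun h => hz' (Finset.mem_singleton.2 h)⟩
    have h1 := lim_comm ρ ρ' hS hp hq (Equiv.swap (ρ.act q x) z) 1 (fun w => by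
      refine Equiv.swap_apply_of_ne_of_ne ?_ ?_
      · intro h; exact hy ⟨w, h⟩
      · intro h; exact hz ⟨w, h⟩) x
    rw [Equiv.swap_apply_left] at h1
    exact hzy h1

/-- An element which acts injectively on `ℕ` acts on a point of `Ω'` in the same way as every
permutation which agrees with it on a support of the point. -/
theorem inj_act {p : M} (hp : Function.Injective (ρ.act p)) {d : Ω'} {F : Finset ℕ}
    (hF : Supp ρ ρ' hS F d) {σ : Equiv.Perm ℕ} (hσ : ∀ x ∈ F, σ x = ρ.act p x) :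
    ρ'.act p d = al ρ ρ' hS σ d := by
  classical
  obtain ⟨q, hq⟩ := exists_lim ρ ρ' hS p hp
  suffices h : q = p by
    rw [← h]
    exact hq d F σ hF hσ
  apply ρ.inj
  intro x
  obtain ⟨r, hr⟩ := exists_inj ρ hS (f := fun y => Equiv.swap 0 x (2 * y)) (by
    intro y z h
    have := (Equiv.swap 0 x).injective h
    omega)
  have hr' : Function.Injective (ρ.act r) := by
    intro y z h
    rw [hr, hr] at h
    have := (Equiv.swap 0 x).injective h
    omega
  have hrx : ρ.act r 0 = x := by rw [hr]; exact Equiv.swap_apply_left _ _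
  have hrco : (Set.range (ρ.act r))ᶜ.Infinite := by
    have h1 : (Set.range fun y : ℕ => Equiv.swap 0 x (2 * y + 1)).Infinite := by
      apply Set.infinite_range_of_injective
      intro y z h
      have := (Equiv.swap 0 x).injective h
      omega
    refine h1.mono ?_
    rintro _ ⟨y, rfl⟩ ⟨z, hz⟩
    rw [hr] at hz
    have := (Equiv.swap 0 x).injective hz
    omega
  have hpr : Function.Injective (ρ.act (p * r)) := by
    intro y z h
    rw [ρ.mul, ρ.mul] at h
    exact hr' (hp h)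
  have hprco : (Set.range (ρ.act (p * r)))ᶜ.Infinite := by
    refine (hrco.image (f := ρ.act p) hp.injOn).mono ?_
    rintro _ ⟨y, hy, rfl⟩ ⟨z, hz⟩
    rw [ρ.mul] at hz
    exact hy ⟨z, hp hz⟩
  obtain ⟨r', hr'1⟩ := exists_lim ρ ρ' hS r hr'
  have er := lim_eq_of_coinfinite ρ ρ' hS hr' hrco hr'1
  rw [er] at hr'1
  obtain ⟨s, hs⟩ := exists_lim ρ ρ' hS (p * r) hpr
  have es := lim_eq_of_coinfinite ρ ρ' hS hpr hprco hs
  rw [es] at hs
  have h1 : q * r = p * r := by
    apply ρ'.inj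
    intro e
    obtain ⟨κ, hκ⟩ := ext_perm (ρ.act r) (ms ρ ρ' hS e) fun x _ y _ h => hr' h
    obtain ⟨κ', hκ'⟩ := ext_perm (ρ.act p) ((ms ρ ρ' hS e).image κ) fun x _ y _ h => hp h
    rw [ρ'.mul, hr'1 e _ κ (ms_supp ρ ρ' hS e) hκ,
      hq _ _ κ' ((ms_supp ρ ρ' hS e).image ρ ρ' hS κ) hκ', ← al_mul]
    refine (hs e _ _ (ms_supp ρ ρ' hS e) fun x hx => ?_).symm
    rw [Equiv.Perm.mul_apply, hκ' _ (Finset.mem_image_of_mem _ hx), hκ x hx, ρ.mul]
  have h2 : ρ.act (q * r) 0 = ρ.act (p * r) 0 := by rw [h1]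
  rw [ρ.mul, ρ.mul, hrx] at h2
  exact h2

/-- an element which acts injectively on `ℕ` and fixes a support of `d` fixes `d` -/
theorem inj_fix {p : M} (hp : Function.Injective (ρ.act p)) {d : Ω'} {F : Finset ℕ}
    (hF : Supp ρ ρ' hS F d) (h : ∀ x ∈ F, ρ.act p x = x) : ρ'.act p d = d := by
  rw [inj_act ρ ρ' hS hp hF (σ := 1) (fun x hx => (h x hx).symm), al_one]

/-- elements which act injectively on `ℕ` and agree on a support of `d` agree at `d` -/
theorem inj_congr {p q : M} (hp : Function.Injective (ρ.act p)) (hq : Function.Injective (ρ.act q))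
    {d : Ω'} {F : Finset ℕ} (hF : Supp ρ ρ' hS F d) (h : ∀ x ∈ F, ρ.act p x = ρ.act q x) :
    ρ'.act p d = ρ'.act q d := by
  classical
  obtain ⟨κ, hκ⟩ := ext_perm (ρ.act p) F fun x _ y _ h => hp h
  rw [inj_act ρ ρ' hS hp hF hκ, inj_act ρ ρ' hS hq hF (fun x hx => by rw [hκ x hx, h x hx])]

/-- an element which acts injectively on `ℕ` acts injectively on `Ω'` -/
theorem inj_inj {p : M} (hp : Function.Injective (ρ.act p)) : Function.Injective (ρ'.act p) := by
  classical
  intro d e h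
  obtain ⟨κ, hκ⟩ := ext_perm (ρ.act p) (ms ρ ρ' hS d ∪ ms ρ ρ' hS e) fun x _ y _ h => hp h
  rw [inj_act ρ ρ' hS hp (ms_supp ρ ρ' hS d) (fun x hx => hκ x (Finset.mem_union_left _ hx)),
    inj_act ρ ρ' hS hp (ms_supp ρ ρ' hS e) (fun x hx => hκ x (Finset.mem_union_right _ hx))] at h
  exact al_inj ρ ρ' hS κ h

/-- the smallest support of the image of a point -/
theorem ms_act {p : M} (hp : Function.Injective (ρ.act p)) (d : Ω') :
    ms ρ ρ' hS (ρ'.act p d) = (ms ρ ρ' hS d).image (ρ.act p) := by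
  classical
  obtain ⟨κ, hκ⟩ := ext_perm (ρ.act p) (ms ρ ρ' hS d) fun x _ y _ h => hp h
  have himg : (ms ρ ρ' hS d).image (ρ.act p) = (ms ρ ρ' hS d).image κ :=
    Finset.image_congr fun x hx => (hκ x hx).symm
  rw [inj_act ρ ρ' hS hp (ms_supp ρ ρ' hS d) hκ, himg]
  apply Finset.Subset.antisymm
  · exact ms_le ρ ρ' hS ((ms_supp ρ ρ' hS d).image ρ ρ' hS κ)
  · have h1 := (ms_supp ρ ρ' hS (al ρ ρ' hS κ d)).image ρ ρ' hS κ⁻¹
    rw [← al_mul, inv_mul_cancel, al_one] at h1
    have h2 := ms_le ρ ρ' hS h1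
    intro y hy
    obtain ⟨x, hx, rfl⟩ := Finset.mem_image.1 hy
    obtain ⟨z, hz, hzx⟩ := Finset.mem_image.1 (h2 hx)
    rw [Equiv.Perm.inv_eq_iff_eq] at hzx
    rw [← hzx]
    exact hz

end

end Q202.Rec
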